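import Pool.Agent.Q97.RB.Spc
import Pool.Agent.Q97.MM.Cmp

set_option autoImplicit false

open Filter MeasureTheory Metric Set Topology Complex

namespace Q97.RB

open Q97.MM

noncomputable section

theorem zeta_bdx {x : ℝ} (h1 : 1 / 4 ≤ x) (h2 : x ≤ 3 / 4) (y : ℝ) :
    ‖riemannZeta (x + y * I)‖ ≤ 180 * (1 + |y|) ^ 2 := by
  have h3 := Z1_growth (y := y) h1 (by linarith)
  rw [Z1_of_ne (ne_one_of_re (by linarith) y), norm_mul] at h3
  have h4 : 1 / 4 ≤ ‖(x : ℂ) + y * I - 1‖ := by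
    have := Complex.abs_re_le_norm ((x : ℂ) + y * I - 1)
    have e : ((x : ℂ) + y * I - 1).re = x - 1 := by simp
    rw [e] at this
    refine le_trans ?_ this
    rw [abs_of_nonpos (by linarith)]
    linarith
  have h6 := mul_le_mul_of_nonneg_right h4 (norm_nonneg (riemannZeta (x + y * I)))
  linarith

theorem zeta_rpow_bd {β : ℝ} (hβ : 0 < β) {x : ℝ} (h1 : 1 / 4 ≤ x) (h2 : x ≤ 3 / 4) (y : ℝ) :
    ‖riemannZeta (x + y * I)‖ ^ β ≤ 180 ^ β * (1 + |y|) ^ ⌈2 * β⌉₊ :=
  Q97.BS.rpow_bd (norm_nonneg _) hβ (by norm_num) (zeta_bdx h1 h2 y)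

/-- the windowed moment of `ζ` on the line `Re s = x` -/
def MB (β T U x : ℝ) : ℝ := ∫ y : ℝ, ‖riemannZeta (x + y * I)‖ ^ β * wt T U y

theorem MB_nonneg (β T U x : ℝ) : 0 ≤ MB β T U x :=
  integral_nonneg fun y => mul_nonneg (by positivity) (wt_pos _ _ _).le

theorem MB_integrable {β : ℝ} (hβ : 0 < β) {T U x : ℝ} (hU : 0 < U) (hT : 0 ≤ T) (hUT : U ≤ T)
    (h1 : 1 / 4 ≤ x) (h2 : x ≤ 3 / 4) :
    Integrable (fun y : ℝ => ‖riemannZeta (x + y * I)‖ ^ β * wt T U y) :=
  poly_wt_integrable ⌈2 * β⌉₊ (C₀ := 180 ^ β) hU hT hUT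
    ((zeta_line_cont (by linarith)).norm.rpow_const fun y => Or.inr hβ.le).aestronglyMeasurable
    (fun y => by
      rw [abs_of_nonneg (by positivity)]
      exact zeta_rpow_bd hβ h1 h2 y)

/-- normalised moment -/
def JB (β T U a : ℝ) : ℝ := T ^ β * MB β T U (1 / 2 + a / Real.log T) / HB β T U (1 / 2)

theorem near_one' (β : ℝ) {ε : ℝ} (hε : 0 < ε) : ∃ d : ℝ, 0 < d ∧ ∀ r : ℝ, |r - 1| < d →
    |r ^ β - 1| ≤ ε := by
  have hcont : Tendsto (fun x : ℝ => x ^ β) (𝓝 1) (𝓝 1) := by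
    have := (Real.continuousAt_rpow_const (1 : ℝ) β (Or.inl one_ne_zero)).tendsto
    rwa [Real.one_rpow] at this
  obtain ⟨d, hd, hd'⟩ := Metric.tendsto_nhds_nhds.mp hcont ε hε
  refine ⟨d, hd, fun r hr => ?_⟩
  have := hd' (x := r) (by rwa [Real.dist_eq])
  rw [Real.dist_eq] at this
  exact this.le

theorem GB_nonneg (β T U a : ℝ) : 0 ≤ GB β T U a := div_nonneg (HB_nonneg _ _ _ _) (HB_nonneg _ _ _ _)

theorem JB_nonneg (β : ℝ) {T : ℝ} (hT : 0 < T) (U a : ℝ) : 0 ≤ JB β T U a :=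
  div_nonneg (mul_nonneg (by positivity) (MB_nonneg _ _ _ _)) (HB_nonneg _ _ _ _)

/-- Removal of the factor `s - 1`. -/
theorem F1 {β : ℝ} (hβ : 0 < β) (a : ℝ) {ε : ℝ} (hε : 0 < ε) :
    ∀ᶠ T : ℝ in atTop, ∀ U : ℝ, Adm T U →
      |GB β T U a - JB β T U a| ≤ ε * GB β T U a + ε := by
  obtain ⟨d, hd, hd'⟩ := near_one' β (half_pos hε)
  obtain ⟨c, hc, hc'⟩ := H0_lower hβ
  set η := min (1 / 2) (d / 8) with hη
  have hη0 : 0 < η := lt_min (by norm_num) (by positivity)
  have hη1 : η ≤ 1 / 2 := min_le_left _ _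
  have hη2 : η ≤ d / 8 := min_le_right _ _
  set n := ⌈2 * β⌉₊ with hn
  have hK := KK_nonneg n
  have htail := (tail_tendsto n hη0).const_mul (2 * 180 ^ β * KK n / c)
  rw [mul_zero] at htail
  have hsmall : Tendsto (fun T : ℝ => |a / Real.log T| ^ 2) atTop (𝓝 0) := by
    have := (log_div_tendsto a).pow 2
    simpa using this
  filter_upwards [htail.eventually (gt_mem_nhds hε), hsmall.eventually (gt_mem_nhds (half_pos hε)),
    (log_div_tendsto a).eventually (gt_mem_nhds (show (0 : ℝ) < 1 / 4 by norm_num)),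
    eventually_ge_atTop (8 / d)] with T h1 h2 h3 h4 U h
  have hT : 0 < T := by linarith [h.1]
  have hU := h.pos
  have hL := h.log
  have hV0 := HB_pos hβ h (x := 1 / 2) (by norm_num) (by norm_num)
  set x := 1 / 2 + a / Real.log T with hx
  have hx1 : 1 / 4 ≤ x := by linarith [(abs_lt.mp h3).1]
  have hx2 : x ≤ 3 / 4 := by linarith [(abs_lt.mp h3).2]
  set E := Real.exp (-((η * Real.log T) ^ 2 / 2)) with hE
  have hT1 : 1 ≤ T ^ β := Real.one_le_rpow (by linarith [h.1]) hβ.le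
  have hpq : ∀ y : ℝ, |y - T| ≤ η * T →
      |‖Z1 (x + y * I)‖ ^ β - T ^ β * ‖riemannZeta (x + y * I)‖ ^ β| ≤
        ε / 2 * ‖Z1 (x + y * I)‖ ^ β := by
    intro y hy
    have hy' : |y - T| ≤ 1 / 2 * T := hy.trans (mul_le_mul_of_nonneg_right hη1 hT.le)
    have hy1 : T / 2 ≤ y := by linarith [(abs_le.mp hy').1]
    have hne := ne_one_of_re (x := x) (by linarith) y
    set m := ‖(x : ℂ) + y * I - 1‖ with hm
    have hm0 : 0 < m := norm_pos_iff.mpr (sub_ne_zero.mpr hne)
    have hm1 : y ≤ m := by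
      have := Complex.abs_im_le_norm ((x : ℂ) + y * I - 1)
      have e : ((x : ℂ) + y * I - 1).im = y := by simp
      rw [e] at this
      exact (le_abs_self y).trans this
    have hm2 : m ≤ 1 + y := by
      have e : (x : ℂ) + y * I - 1 = ((x - 1 : ℝ) : ℂ) + y * I := by push_cast; ring
      rw [hm, e]
      refine (norm_add_le _ _).trans ?_
      rw [norm_mul, Complex.norm_I, mul_one, Complex.norm_real, Complex.norm_real,
        Real.norm_eq_abs, Real.norm_eq_abs, abs_of_nonneg (by linarith : 0 ≤ y)]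
      have : |x - 1| ≤ 1 := by
        rw [abs_le]
        constructor <;> linarith
      linarith
    have hr : |T / m - 1| < d := by
      have e1 : T / m - 1 = (T - m) / m := by field_simp
      rw [e1, abs_div, abs_of_pos hm0, div_lt_iff₀ hm0]
      have e2 : |T - m| ≤ η * T + 1 := by
        rw [abs_le] at hy ⊢
        constructor <;> linarith [hy.1, hy.2]
      have e3 : 8 ≤ d * T := by
        rw [div_le_iff₀ hd] at h4
        linarith
      have e4 : η * T ≤ d / 8 * T := mul_le_mul_of_nonneg_right hη2 hT.le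
      have e5 : d * (T / 2) ≤ d * m := mul_le_mul_of_nonneg_left (by linarith) hd.le
      nlinarith
    have hdr := hd' _ hr
    have hZ : T ^ β * ‖riemannZeta (x + y * I)‖ ^ β = (T / m) ^ β * ‖Z1 (x + y * I)‖ ^ β := by
      rw [Z1_of_ne hne, norm_mul, ← hm, Real.mul_rpow hm0.le (norm_nonneg _),
        Real.div_rpow hT.le hm0.le]
      have : 0 < m ^ β := by positivity
      field_simp
    rw [hZ]
    have e6 : ‖Z1 (x + y * I)‖ ^ β - (T / m) ^ β * ‖Z1 (x + y * I)‖ ^ β =
        -(((T / m) ^ β - 1) * ‖Z1 (x + y * I)‖ ^ β) := by ring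
    rw [e6, abs_neg, abs_mul, abs_of_nonneg (by positivity : 0 ≤ ‖Z1 (x + y * I)‖ ^ β)]
    exact mul_le_mul_of_nonneg_right hdr (by positivity)
  have hloc := loc n (T := T) (U := U) (η := η) (κ := ε / 2)
    (C₀ := T ^ β * 180 ^ β) h.1 hU h.2.2 hη0.le (by positivity)
    (p := fun y : ℝ => ‖Z1 (x + y * I)‖ ^ β)
    (q := fun y : ℝ => T ^ β * ‖riemannZeta (x + y * I)‖ ^ β)
    ((Z1_cont_line x).norm.rpow_const fun y => Or.inr hβ.le).aestronglyMeasurable
    (((zeta_line_cont (by linarith)).norm.rpow_const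
      fun y => Or.inr hβ.le).aestronglyMeasurable.const_mul _)
    (fun y => by positivity)
    (fun y => by
      rw [abs_of_nonneg (by positivity)]
      refine (Z1_rpow_bd hβ hx1 (by linarith) y).trans ?_
      apply mul_le_mul_of_nonneg_right _ (by positivity)
      calc (45 : ℝ) ^ β ≤ 180 ^ β := Real.rpow_le_rpow (by norm_num) (by norm_num) hβ.le
        _ ≤ T ^ β * 180 ^ β := le_mul_of_one_le_left (by positivity) hT1)
    (fun y => by
      rw [abs_of_nonneg (by positivity), mul_assoc]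
      exact mul_le_mul_of_nonneg_left (zeta_rpow_bd hβ hx1 hx2 y) (by positivity))
    hpq
  have e1 : ∫ y : ℝ, ‖Z1 (x + y * I)‖ ^ β * wt T U y = PB β T U x := rfl
  have e2 : ∫ y : ℝ, (T ^ β * ‖riemannZeta (x + y * I)‖ ^ β) * wt T U y =
      T ^ β * MB β T U x := by
    unfold MB
    rw [← integral_const_mul]
    refine integral_congr_ae (Eventually.of_forall fun y => ?_)
    simp only [mul_assoc]
  rw [e1, e2] at hloc
  -- divide by `H0`
  set V := HB β T U (1 / 2) with hV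
  set p := PB β T U x / V with hp
  have hp0 : 0 ≤ p := div_nonneg (PB_nonneg _ _ _ _) hV0.le
  have hJ : JB β T U a = T ^ β * MB β T U x / V := rfl
  have hG : GB β T U a = Real.exp ((a / Real.log T) ^ 2 / U ^ 2) * p := by
    unfold GB
    rw [HB_eq hβ hU, hp, ← hx, ← hV, mul_div_assoc]
    congr 3
    rw [hx]
    ring
  have h5 : |p - JB β T U a| ≤ ε / 2 * p + ε := by
    rw [hJ, hp, ← sub_div, abs_div, abs_of_pos hV0, div_le_iff₀ hV0]
    have e3 : (ε / 2 * (PB β T U x / V) + ε) * V = ε / 2 * PB β T U x + ε * V := by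
      field_simp
    rw [e3]
    refine hloc.trans (add_le_add le_rfl ?_)
    have e4 := hc' T U h
    have e5 : 2 * (T ^ β * 180 ^ β) * (1 + T) ^ n * E * (U * KK n) =
        (2 * 180 ^ β * KK n / c * ((1 + T) ^ n * E)) * (c * (T ^ β * U)) := by
      field_simp
    rw [e5]
    calc _ ≤ ε * (c * (T ^ β * U)) := mul_le_mul_of_nonneg_right h1.le (by positivity)
      _ ≤ ε * V := mul_le_mul_of_nonneg_left e4 hε.le
  -- the factor `exp`
  set z := (a / Real.log T) ^ 2 / U ^ 2 with hz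
  have hz0 : 0 ≤ z := by positivity
  have hz1 : z ≤ ε / 2 := by
    have : z ≤ (a / Real.log T) ^ 2 := div_le_self (by positivity) (by nlinarith [h.2.1])
    rw [sq_abs] at h2
    linarith
  have hG0 := GB_nonneg β T U a
  have h6 : p ≤ GB β T U a := by
    rw [hG]
    exact le_mul_of_one_le_left hp0 (Real.one_le_exp hz0)
  have h7 : GB β T U a - p ≤ ε / 2 * GB β T U a := by
    have e8 : p = Real.exp (-z) * GB β T U a := by
      rw [hG, ← mul_assoc, ← Real.exp_add, neg_add_cancel, Real.exp_zero, one_mul]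
    have e9 := Real.add_one_le_exp (-z)
    rw [e8]
    nlinarith
  rw [abs_le] at h5 ⊢
  constructor
  · nlinarith [h5.1]
  · nlinarith [h5.2]

/-- The functional equation for the moments. -/
theorem F2 {β : ℝ} (hβ : 0 < β) {a : ℝ} (ha : 0 ≤ a) {ε : ℝ} (hε : 0 < ε) :
    ∀ᶠ T : ℝ in atTop, ∀ U : ℝ, Adm T U →
      |Real.exp (β * a) * JB β T U a - JB β T U (-a)| ≤
        ε * (Real.exp (β * a) * JB β T U a) + ε := by
  obtain ⟨d, hd, hd'⟩ := near_one' β hε
  obtain ⟨c, hc, hc'⟩ := H0_lower hβ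
  set n := ⌈2 * β⌉₊ with hn
  have hK := KK_nonneg n
  have htail := (tail_tendsto n (η := 1 / 2) (by norm_num)).const_mul
    (2 * (Real.exp (β * a) * 180 ^ β) * KK n / c)
  rw [mul_zero] at htail
  filter_upwards [htail.eventually (gt_mem_nhds hε), XX_scaled ha (half_pos hd),
    (log_div_tendsto a).eventually (gt_mem_nhds (show (0 : ℝ) < 1 / 4 by norm_num)),
    eventually_ge_atTop 28] with T h1 h2 h3 h4 U h
  have hT : 0 < T := by linarith [h.1]
  have hU := h.pos
  have hL := h.log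
  have hV0 := HB_pos hβ h (x := 1 / 2) (by norm_num) (by norm_num)
  set δ := a / Real.log T with hδ
  have hd1 := abs_lt.mp h3
  set E := Real.exp (-((1 / 2 * Real.log T) ^ 2 / 2)) with hE
  set A := Real.exp (β * a) with hA
  have hA0 : 0 < A := Real.exp_pos _
  have hA1 : 1 ≤ A := Real.one_le_exp (by positivity)
  have hpq : ∀ y : ℝ, |y - T| ≤ 1 / 2 * T →
      |A * ‖riemannZeta (((1 / 2 + δ : ℝ) : ℂ) + y * I)‖ ^ β -
        ‖riemannZeta (((1 / 2 - δ : ℝ) : ℂ) + y * I)‖ ^ β| ≤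
        ε * (A * ‖riemannZeta (((1 / 2 + δ : ℝ) : ℂ) + y * I)‖ ^ β) := by
    intro y hy
    have hy1 : T / 2 ≤ y := by linarith [(abs_le.mp hy).1]
    have hX := h2 y (by linarith)
    rw [zeta_sym δ (by linarith), Real.mul_rpow (norm_nonneg _) (norm_nonneg _)]
    set N := ‖H345.XX (((1 / 2 + δ : ℝ) : ℂ) + (y : ℂ) * I)‖ with hN
    have hN0 : 0 ≤ N := norm_nonneg _
    have hdr := hd' (N * Real.exp (-a)) (by
      refine lt_of_le_of_lt hX ?_
      linarith)
    have e1 : N ^ β = A * (N * Real.exp (-a)) ^ β := by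
      rw [Real.mul_rpow hN0 (Real.exp_pos _).le, ← Real.exp_mul, hA]
      have e2 : Real.exp (β * a) * Real.exp (-a * β) = 1 := by
        rw [← Real.exp_add]
        rw [show β * a + -a * β = 0 by ring, Real.exp_zero]
      calc N ^ β = N ^ β * (Real.exp (β * a) * Real.exp (-a * β)) := by rw [e2, mul_one]
        _ = _ := by ring
    rw [e1]
    set Z := ‖riemannZeta (((1 / 2 + δ : ℝ) : ℂ) + y * I)‖ ^ β with hZ
    have hZ0 : 0 ≤ Z := by positivity
    have e6 : A * Z - A * (N * Real.exp (-a)) ^ β * Z =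
        -(((N * Real.exp (-a)) ^ β - 1) * (A * Z)) := by ring
    rw [e6, abs_neg, abs_mul, abs_of_nonneg (by positivity : 0 ≤ A * Z)]
    exact mul_le_mul_of_nonneg_right hdr (by positivity)
  have hloc := loc n (T := T) (U := U) (η := 1 / 2) (κ := ε)
    (C₀ := A * 180 ^ β) h.1 hU h.2.2 (by norm_num) hε.le
    (p := fun y : ℝ => A * ‖riemannZeta (((1 / 2 + δ : ℝ) : ℂ) + y * I)‖ ^ β)
    (q := fun y : ℝ => ‖riemannZeta (((1 / 2 - δ : ℝ) : ℂ) + y * I)‖ ^ β)
    (((zeta_line_cont (by linarith)).norm.rpow_const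
      fun y => Or.inr hβ.le).aestronglyMeasurable.const_mul _)
    ((zeta_line_cont (by linarith)).norm.rpow_const fun y => Or.inr hβ.le).aestronglyMeasurable
    (fun y => by positivity)
    (fun y => by
      rw [abs_of_nonneg (by positivity), mul_assoc]
      exact mul_le_mul_of_nonneg_left (zeta_rpow_bd hβ (by linarith) (by linarith) y) hA0.le)
    (fun y => by
      rw [abs_of_nonneg (by positivity), mul_assoc]
      refine (zeta_rpow_bd hβ (by linarith) (by linarith) y).trans ?_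
      exact le_mul_of_one_le_left (by positivity) hA1)
    hpq
  have e1 : ∫ y : ℝ, (A * ‖riemannZeta (((1 / 2 + δ : ℝ) : ℂ) + y * I)‖ ^ β) * wt T U y =
      A * MB β T U (1 / 2 + δ) := by
    unfold MB
    rw [← integral_const_mul]
    refine integral_congr_ae (Eventually.of_forall fun y => ?_)
    simp only [mul_assoc]
  have e2 : ∫ y : ℝ, ‖riemannZeta (((1 / 2 - δ : ℝ) : ℂ) + y * I)‖ ^ β * wt T U y =
      MB β T U (1 / 2 - δ) := rfl
  rw [e1, e2] at hloc
  set V := HB β T U (1 / 2) with hV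
  have hJ : JB β T U a = T ^ β * MB β T U (1 / 2 + δ) / V := rfl
  have hJ' : JB β T U (-a) = T ^ β * MB β T U (1 / 2 - δ) / V := by
    unfold JB
    rw [neg_div, ← sub_eq_add_neg]
  set S := T ^ β / V with hS
  have hS0 : 0 ≤ S := by positivity
  have e3 : A * JB β T U a - JB β T U (-a) =
      S * (A * MB β T U (1 / 2 + δ) - MB β T U (1 / 2 - δ)) := by
    rw [hJ, hJ', hS]
    ring
  have e3' : ε * (A * JB β T U a) = S * (ε * (A * MB β T U (1 / 2 + δ))) := by
    rw [hJ, hS]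
    ring
  rw [e3, e3', abs_mul, abs_of_nonneg hS0]
  refine (mul_le_mul_of_nonneg_left hloc hS0).trans ?_
  rw [mul_add]
  refine add_le_add le_rfl ?_
  have e4 := hc' T U h
  have e5 : S * (2 * (A * 180 ^ β) * (1 + T) ^ n * E * (U * KK n)) =
      (2 * (A * 180 ^ β) * KK n / c * ((1 + T) ^ n * E)) * (c * (T ^ β * U)) / V := by
    rw [hS]
    field_simp
  rw [e5, div_le_iff₀ hV0]
  calc _ ≤ ε * (c * (T ^ β * U)) := mul_le_mul_of_nonneg_right h1.le (by positivity)
    _ ≤ ε * V := mul_le_mul_of_nonneg_left e4 hε.le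

end

end Q97.RB
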