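import Pool.Agent.Q97.RB.Lin

set_option autoImplicit false

open Filter MeasureTheory Metric Set Topology Complex

namespace Q97.RB

noncomputable section

theorem max_principle {h : ℝ → ℝ} {x₁ x₂ : ℝ} (hc : ContinuousOn h (Icc x₁ x₂))
    (hs : ∀ x r : ℝ, 0 < r → x₁ ≤ x - r → x + r ≤ x₂ →
      h x ≤ (2 * Real.pi)⁻¹ * ∫ θ in (0 : ℝ)..(2 * Real.pi), h (x + r * Real.cos θ)) :
    ∀ x ∈ Icc x₁ x₂, h x ≤ max (h x₁) (h x₂) := by
  intro x hx
  by_contra hcon
  push Not at hcon
  have hπ := Real.pi_pos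
  set M := max (h x₁) (h x₂) with hM
  have hM1 : h x₁ ≤ M := le_max_left _ _
  have hM2 : h x₂ ≤ M := le_max_right _ _
  have hx1 : x₁ < x := lt_of_le_of_ne hx.1 (by rintro rfl; linarith)
  have hx2 : x < x₂ := lt_of_le_of_ne hx.2 (by rintro rfl; linarith)
  set P := (x - x₁) * (x₂ - x) with hP
  have hP0 : 0 < P := mul_pos (by linarith) (by linarith)
  set ε := (h x - M) / (2 * P) with hε
  have hε0 : 0 < ε := div_pos (by linarith) (by positivity)
  have hεP : ε * P = (h x - M) / 2 := by rw [hε]; field_simp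
  set g : ℝ → ℝ := fun t => h t - ε * ((t - x₁) * (x₂ - t)) with hg
  have hgc : ContinuousOn g (Icc x₁ x₂) := hc.sub (Continuous.continuousOn (by fun_prop))
  obtain ⟨t₀, ht₀, hmax⟩ := isCompact_Icc.exists_isMaxOn ⟨x, hx⟩ hgc
  have hgx : M < g x := by
    show M < h x - ε * ((x - x₁) * (x₂ - x))
    rw [← hP, hεP]
    linarith
  have hgt : M < g t₀ := lt_of_lt_of_le hgx (hmax hx)
  have h1 : x₁ < t₀ := by
    refine lt_of_le_of_ne ht₀.1 fun he => ?_
    have h0 : g x₁ = h x₁ := by simp [hg]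
    rw [← he] at hgt
    linarith
  have h2 : t₀ < x₂ := by
    refine lt_of_le_of_ne ht₀.2 fun he => ?_
    have h0 : g x₂ = h x₂ := by simp [hg]
    rw [he] at hgt
    linarith
  set a := t₀ - x₁ with ha
  set b := x₂ - t₀ with hb
  have ha0 : 0 < a := by rw [ha]; linarith
  have hb0 : 0 < b := by rw [hb]; linarith
  set r := min a b with hr
  have hr0 : 0 < r := lt_min ha0 hb0
  have hra : r ≤ a := min_le_left _ _
  have hrb : r ≤ b := min_le_right _ _
  have hsub := hs t₀ r hr0 (by rw [ha] at hra; linarith) (by rw [hb] at hrb; linarith)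
  have hmem : ∀ θ : ℝ, t₀ + r * Real.cos θ ∈ Icc x₁ x₂ := by
    intro θ
    have hcos := Real.neg_one_le_cos θ
    have hcos' := Real.cos_le_one θ
    rw [ha] at hra
    rw [hb] at hrb
    exact ⟨by nlinarith, by nlinarith⟩
  have hci : IntervalIntegrable (fun θ => h (t₀ + r * Real.cos θ)) volume 0 (2 * Real.pi) := by
    refine ContinuousOn.intervalIntegrable ?_
    exact hc.comp (Continuous.continuousOn (by fun_prop)) fun θ _ => hmem θ
  have hcr : Continuous (fun θ : ℝ => g t₀ + ε * (a * b + (b - a) * r * Real.cos θ -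
      r ^ 2 * Real.cos θ ^ 2)) := by fun_prop
  have hle : ∫ θ in (0 : ℝ)..(2 * Real.pi), h (t₀ + r * Real.cos θ) ≤
      ∫ θ in (0 : ℝ)..(2 * Real.pi), (g t₀ + ε * (a * b + (b - a) * r * Real.cos θ -
        r ^ 2 * Real.cos θ ^ 2)) := by
    refine intervalIntegral.integral_mono_on (by positivity) hci (hcr.intervalIntegrable _ _) ?_
    intro θ _
    have h3 : g (t₀ + r * Real.cos θ) ≤ g t₀ := hmax (hmem θ)
    have h4 : h (t₀ + r * Real.cos θ) = g (t₀ + r * Real.cos θ) +
        ε * (a * b + (b - a) * r * Real.cos θ - r ^ 2 * Real.cos θ ^ 2) := by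
      simp only [hg, ha, hb]
      ring
    rw [h4]
    linarith
  have hcalc : ∫ θ in (0 : ℝ)..(2 * Real.pi), (g t₀ + ε * (a * b + (b - a) * r * Real.cos θ -
        r ^ 2 * Real.cos θ ^ 2)) = 2 * Real.pi * (g t₀ + ε * (a * b)) - ε * r ^ 2 * Real.pi := by
    have e : (fun θ : ℝ => g t₀ + ε * (a * b + (b - a) * r * Real.cos θ - r ^ 2 * Real.cos θ ^ 2)) =
        fun θ : ℝ => ((g t₀ + ε * (a * b)) + (ε * ((b - a) * r)) * Real.cos θ) -
          (ε * r ^ 2) * Real.cos θ ^ 2 := by
      funext θ; ring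
    have i1 : IntervalIntegrable (fun θ : ℝ => (g t₀ + ε * (a * b)) +
        (ε * ((b - a) * r)) * Real.cos θ) volume 0 (2 * Real.pi) :=
      Continuous.intervalIntegrable (by fun_prop) _ _
    have i2 : IntervalIntegrable (fun θ : ℝ => (ε * r ^ 2) * Real.cos θ ^ 2) volume 0
        (2 * Real.pi) := Continuous.intervalIntegrable (by fun_prop) _ _
    have i3 : IntervalIntegrable (fun θ : ℝ => (ε * ((b - a) * r)) * Real.cos θ) volume 0
        (2 * Real.pi) := Continuous.intervalIntegrable (by fun_prop) _ _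
    rw [e, intervalIntegral.integral_sub i1 i2,
      intervalIntegral.integral_add intervalIntegrable_const i3, intervalIntegral.integral_const,
      intervalIntegral.integral_const_mul, intervalIntegral.integral_const_mul, integral_cos,
      integral_cos_sq]
    simp only [Real.sin_two_pi, Real.sin_zero, smul_eq_mul, mul_zero, sub_zero, zero_add]
    ring
  rw [hcalc] at hle
  have h5 : (2 * Real.pi)⁻¹ * ∫ θ in (0 : ℝ)..(2 * Real.pi), h (t₀ + r * Real.cos θ) ≤
      (2 * Real.pi)⁻¹ * (2 * Real.pi * (g t₀ + ε * (a * b)) - ε * r ^ 2 * Real.pi) := by gcongr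
  have h6 : (2 * Real.pi)⁻¹ * (2 * Real.pi * (g t₀ + ε * (a * b)) - ε * r ^ 2 * Real.pi) =
      g t₀ + ε * (a * b) - ε * r ^ 2 / 2 := by
    field_simp
  have h7 : g t₀ = h t₀ - ε * (a * b) := rfl
  have h8 : 0 < ε * r ^ 2 / 2 := by positivity
  rw [h6, h7] at h5
  linarith

variable {F : ℂ → ℂ} {α α' β : ℝ}

theorem Gd_mono (hG : Gd F α α') {a a' : ℝ} (h1 : α ≤ a) (h2 : a' ≤ α') : Gd F a a' := by
  obtain ⟨M, δ, hM, hδ, h⟩ := hG
  exact ⟨M, δ, hM, hδ, fun x y hx hy => h x y (h1.trans hx) (hy.trans h2)⟩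

theorem Gd_exp (hG : Gd F α α') (lam : ℝ) : Gd (fun s => F s * cexp (lam * s)) α α' := by
  obtain ⟨M, δ, hM, hδ, h⟩ := hG
  refine ⟨M * Real.exp (|lam| * (|α| + |α'|)), δ, by positivity, hδ, fun x y hx hy => ?_⟩
  rw [norm_mul, Complex.norm_exp]
  have e : ((lam : ℂ) * (x + y * I)).re = lam * x := by simp
  rw [e]
  have h1 : lam * x ≤ |lam| * (|α| + |α'|) := by
    have h2 : |x| ≤ |α| + |α'| := by
      rw [abs_le]
      constructor
      · have := neg_abs_le α
        have := abs_nonneg α'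
        linarith
      · have := le_abs_self α'
        have := abs_nonneg α
        linarith
    calc lam * x ≤ |lam * x| := le_abs_self _
      _ = |lam| * |x| := abs_mul _ _
      _ ≤ _ := by gcongr
  calc ‖F (x + y * I)‖ * Real.exp (lam * x)
      ≤ (M * Real.exp (-δ * y ^ 2)) * Real.exp (|lam| * (|α| + |α'|)) := by
        gcongr
        exact h x y hx hy
    _ = _ := by ring

theorem LI_exp (lam x : ℝ) : LI (fun s => F s * cexp (lam * s)) β x =
    Real.exp (lam * β * x) * LI F β x := by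
  unfold LI
  rw [← integral_const_mul]
  refine integral_congr_ae (Eventually.of_forall fun y => ?_)
  simp only
  rw [norm_mul, Complex.norm_exp, Real.mul_rpow (norm_nonneg _) (Real.exp_pos _).le, ← Real.exp_mul]
  have e : ((lam : ℂ) * (x + y * I)).re = lam * x := by simp
  rw [e, mul_comm]
  congr 2
  ring

/-- Gabriel's convexity theorem in a strip: the means of every real order `β > 0` are
logarithmically convex. -/
theorem LI_logconv (hF : Differentiable ℂ F) (hβ : 0 < β) (hG : Gd F α α') {x₁ x₂ θ : ℝ}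
    (h1 : α ≤ x₁) (h12 : x₁ < x₂) (h2 : x₂ ≤ α') (hθ : 0 ≤ θ) (hθ' : θ ≤ 1)
    (hp1 : 0 < LI F β x₁) (hp2 : 0 < LI F β x₂) :
    LI F β ((1 - θ) * x₁ + θ * x₂) ≤ LI F β x₁ ^ (1 - θ) * LI F β x₂ ^ θ := by
  set A := LI F β x₁ with hA
  set B := LI F β x₂ with hB
  set lam : ℝ := (Real.log A - Real.log B) / (x₂ - x₁) / β with hlam
  set G : ℂ → ℂ := fun s => F s * cexp (lam * s) with hGdef
  have hGF : Differentiable ℂ G := hF.mul (by fun_prop)
  have hGG : Gd G x₁ x₂ := Gd_mono (Gd_exp hG lam) h1 h2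
  have hx21 : 0 < x₂ - x₁ := by linarith
  have hmp := max_principle (LI_contOn hGF hβ hGG)
    (fun x r hr ha hb => submean hGF hβ hGG hr ha hb)
  set x := (1 - θ) * x₁ + θ * x₂ with hx
  have hxx : x - x₁ = θ * (x₂ - x₁) := by rw [hx]; ring
  have hx1 : x₁ ≤ x := by
    have : 0 ≤ θ * (x₂ - x₁) := by positivity
    linarith
  have hx2 : x ≤ x₂ := by
    have : (1 - θ) * (x₂ - x₁) ≥ 0 := mul_nonneg (by linarith) hx21.le
    nlinarith
  have h3 := hmp x ⟨hx1, hx2⟩
  rw [hGdef, LI_exp lam x, LI_exp lam x₁, LI_exp lam x₂, ← hA, ← hB] at h3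
  have hlb : lam * β = (Real.log A - Real.log B) / (x₂ - x₁) := by rw [hlam]; field_simp
  have h4 : Real.exp (lam * β * x₂) * B = Real.exp (lam * β * x₁) * A := by
    have e1 : lam * β * x₂ = lam * β * x₁ + (Real.log A - Real.log B) := by
      have : lam * β * (x₂ - x₁) = Real.log A - Real.log B := by
        rw [hlb]; field_simp
      linarith
    rw [e1, Real.exp_add, Real.exp_sub, Real.exp_log hp1, Real.exp_log hp2]
    field_simp
  rw [h4, max_self] at h3
  have h5 : LI F β x ≤ Real.exp (lam * β * (x₁ - x)) * A := by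
    have e2 : Real.exp (lam * β * (x₁ - x)) = Real.exp (-(lam * β * x)) * Real.exp (lam * β * x₁) := by
      rw [← Real.exp_add]; congr 1; ring
    rw [e2]
    have h6 : Real.exp (-(lam * β * x)) * (Real.exp (lam * β * x) * LI F β x) = LI F β x := by
      rw [← mul_assoc, ← Real.exp_add, neg_add_cancel, Real.exp_zero, one_mul]
    calc LI F β x = Real.exp (-(lam * β * x)) * (Real.exp (lam * β * x) * LI F β x) := h6.symm
      _ ≤ Real.exp (-(lam * β * x)) * (Real.exp (lam * β * x₁) * A) := by gcongr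
      _ = _ := by ring
  refine h5.trans (le_of_eq ?_)
  have e3 : lam * β * (x₁ - x) = -(θ * Real.log A) + θ * Real.log B := by
    have : lam * β * (x₂ - x₁) = Real.log A - Real.log B := by
      rw [hlb]; field_simp
    have e4 : x₁ - x = -(θ * (x₂ - x₁)) := by linarith
    rw [e4]
    linear_combination (-θ) * this
  rw [e3, Real.exp_add, Real.rpow_sub hp1, Real.rpow_one, Real.rpow_def_of_pos hp1,
    Real.rpow_def_of_pos hp2, Real.exp_neg, mul_comm (Real.log A) θ, mul_comm (Real.log B) θ]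
  field_simp

end

end Q97.RB
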