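import Mathlib

set_option autoImplicit false

open Filter MeasureTheory Metric Real Set Topology MeromorphicOn

namespace Q97.RB

noncomputable section

theorem ne_zero_codiscrete {F : ℂ → ℂ} (hF : Differentiable ℂ F) {c : ℂ} (hc : F c ≠ 0) (S : Set ℂ) :
    ∀ᶠ z in codiscreteWithin S, F z ≠ 0 := by
  have hA : AnalyticOnNhd ℂ F univ := fun z _ => hF.analyticAt z
  have h := hA.eqOn_zero_or_eventually_ne_zero_of_preconnected isPreconnected_univ
  rcases h with h | h
  · exact absurd (h (mem_univ c)) hc
  · exact h.filter_mono (codiscreteWithin_mono (subset_univ S))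

/-- the logarithmic counting function of the zeros of `F` in a disc -/
def NN (F : ℂ → ℂ) (c : ℂ) (r : ℝ) : ℝ :=
  ∑ᶠ u, (divisor F (closedBall c |r|) u : ℝ) * log (r * ‖c - u‖⁻¹)

/-- Jensen's formula and the convexity of the exponential function. -/
theorem jensen_ineq {F : ℂ → ℂ} (hF : Differentiable ℂ F) {c : ℂ} {r β : ℝ} (hr : 0 < r)
    (hβ : 0 < β) :
    ‖F c‖ ^ β * exp (β * NN F c r) ≤ circleAverage (fun z => ‖F z‖ ^ β) c r := by
  have hcont : Continuous (fun z => ‖F z‖ ^ β) :=
    hF.continuous.norm.rpow_const fun z => Or.inr hβ.le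
  have hci : CircleIntegrable (fun z => ‖F z‖ ^ β) c r := by
    refine Continuous.intervalIntegrable ?_ _ _
    exact hcont.comp (continuous_circleMap c r)
  by_cases hc : F c = 0
  · rw [hc, norm_zero, zero_rpow hβ.ne', zero_mul, circleAverage_def]
    have : 0 ≤ ∫ θ in (0 : ℝ)..2 * π, (fun z => ‖F z‖ ^ β) (circleMap c r θ) :=
      intervalIntegral.integral_nonneg (by positivity) fun θ _ => by positivity
    exact smul_nonneg (by positivity) this
  · have hA : AnalyticOnNhd ℂ F univ := fun z _ => hF.analyticAt z
    have hm : MeromorphicOn F (closedBall c |r|) := (hA.mono (subset_univ _)).meromorphicOn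
    have hm' : MeromorphicOn F (sphere c |r|) := (hA.mono (subset_univ _)).meromorphicOn
    have hJ := MeromorphicOn.circleAverage_log_norm hr.ne' hm
    have hcB : c ∈ closedBall c |r| := mem_closedBall_self (abs_nonneg r)
    have hd : divisor F (closedBall c |r|) c = 0 := by
      rw [MeromorphicOn.AnalyticOnNhd.divisor_apply (hA.mono (subset_univ _)) hcB,
        (hF.analyticAt c).analyticOrderAt_eq_zero.mpr hc]
      simp
    rw [hd, (hF.analyticAt c).meromorphicTrailingCoeffAt_of_ne_zero hc] at hJ
    simp only [Int.cast_zero, zero_mul, add_zero] at hJ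
    change circleAverage (log ‖F ·‖) c r = NN F c r + log ‖F c‖ at hJ
    set m := β * (NN F c r + log ‖F c‖) with hmdef
    have hlog : CircleIntegrable (log ‖F ·‖) c r := hm'.circleIntegrable_log_norm
    have e1 : ‖F c‖ ^ β * exp (β * NN F c r) = exp m := by
      rw [rpow_def_of_pos (norm_pos_iff.mpr hc), ← exp_add, hmdef]
      congr 1
      ring
    have e2 : circleAverage (fun z => ‖F z‖ ^ β) c r =
        circleAverage (fun z => exp (β * log ‖F z‖)) c r := by
      apply circleAverage_congr_codiscreteWithin _ hr.ne'
      filter_upwards [ne_zero_codiscrete hF hc (sphere c |r|)] with z hz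
      rw [rpow_def_of_pos (norm_pos_iff.mpr hz), mul_comm]
    have hci2 : CircleIntegrable (fun z => exp (β * log ‖F z‖)) c r := by
      refine hci.congr_codiscreteWithin ?_
      filter_upwards [ne_zero_codiscrete hF hc (sphere c |r|)] with z hz
      rw [rpow_def_of_pos (norm_pos_iff.mpr hz), mul_comm]
    have hlin : CircleIntegrable (fun z => exp m * (1 + (β * log ‖F z‖ - m))) c r := by
      have h1 : CircleIntegrable (fun z => β * log ‖F z‖) c r := hlog.const_mul β
      have h2 : CircleIntegrable (fun z => β * log ‖F z‖ - m) c r :=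
        h1.sub (circleIntegrable_const m c r)
      have h3 : CircleIntegrable (fun z => 1 + (β * log ‖F z‖ - m)) c r :=
        (circleIntegrable_const 1 c r).add h2
      exact h3.const_mul (exp m)
    have e3 : circleAverage (fun z => exp m * (1 + (β * log ‖F z‖ - m))) c r = exp m := by
      have e4 : (fun z => exp m * (1 + (β * log ‖F z‖ - m))) =
          fun z => (exp m * β) • log ‖F z‖ + (exp m * (1 - m)) := by
        funext z
        rw [smul_eq_mul]
        ring
      have h6 : CircleIntegrable (fun z => (exp m * β) • log ‖F z‖) c r := hlog.const_smul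
      rw [e4, circleAverage_fun_add h6 (circleIntegrable_const _ c r), circleAverage_fun_smul,
        circleAverage_const, hJ, smul_eq_mul, hmdef]
      ring
    rw [e1, e2, ← e3]
    refine circleAverage_mono hlin hci2 fun z _ => ?_
    have h5 := add_one_le_exp (β * log ‖F z‖ - m)
    calc exp m * (1 + (β * log ‖F z‖ - m)) ≤ exp m * exp (β * log ‖F z‖ - m) := by
          gcongr
          linarith
      _ = exp (β * log ‖F z‖) := by
          rw [← exp_add]
          congr 1
          ring

end

end Q97.RB
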