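import Pool.Agent.Q97.RB.Jen

set_option autoImplicit false

open Filter MeasureTheory Metric Set Topology MeromorphicOn Complex

namespace Q97.RB

noncomputable section

theorem div_nonneg' {F : ℂ → ℂ} (hF : Differentiable ℂ F) (U : Set ℂ) (u : ℂ) :
    (0 : ℝ) ≤ (divisor F U u : ℝ) := by
  have hA : AnalyticOnNhd ℂ F univ := fun z _ => hF.analyticAt z
  have h := MeromorphicOn.AnalyticOnNhd.divisor_nonneg (hA.mono (subset_univ U))
  have h2 : (0 : ℤ) ≤ divisor F U u := h u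
  exact_mod_cast h2

theorem NN_term_nonneg {F : ℂ → ℂ} (hF : Differentiable ℂ F) (c : ℂ) {r : ℝ} (hr : 0 < r) (u : ℂ) :
    0 ≤ (divisor F (closedBall c |r|) u : ℝ) * Real.log (r * ‖c - u‖⁻¹) := by
  by_cases hu : u ∈ closedBall c |r|
  · apply mul_nonneg (div_nonneg' hF _ _)
    rw [mem_closedBall, abs_of_pos hr, dist_comm, dist_eq_norm] at hu
    rcases eq_or_ne (‖c - u‖) 0 with h | h
    · rw [h]; simp
    · have h0 : 0 < ‖c - u‖ := lt_of_le_of_ne (norm_nonneg _) (Ne.symm h)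
      apply Real.log_nonneg
      rw [← div_eq_mul_inv, le_div_iff₀ h0]
      linarith
  · have : divisor F (closedBall c |r|) u = 0 :=
      Function.locallyFinsuppWithin.apply_eq_zero_of_notMem _ hu
    rw [this]
    simp

theorem NN_nonneg {F : ℂ → ℂ} (hF : Differentiable ℂ F) (c : ℂ) {r : ℝ} (hr : 0 < r) :
    0 ≤ NN F c r := finsum_nonneg fun u => NN_term_nonneg hF c hr u

/-- the mean of order `β` over a vertical line -/
def LI (F : ℂ → ℂ) (β x : ℝ) : ℝ := ∫ y : ℝ, ‖F (x + y * I)‖ ^ β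

/-- Gaussian decay in a strip -/
def Gd (F : ℂ → ℂ) (α α' : ℝ) : Prop := ∃ M δ : ℝ, 0 ≤ M ∧ 0 < δ ∧
  ∀ x y : ℝ, α ≤ x → x ≤ α' → ‖F (x + y * I)‖ ≤ M * Real.exp (-δ * y ^ 2)

variable {F : ℂ → ℂ} {α α' β : ℝ}

theorem li_cont (hF : Differentiable ℂ F) (hβ : 0 < β) (x : ℝ) :
    Continuous (fun y : ℝ => ‖F (x + y * I)‖ ^ β) := by
  have := hF.continuous
  refine Continuous.rpow_const ?_ fun y => Or.inr hβ.le
  fun_prop

theorem li_bd (hβ : 0 < β) {M δ : ℝ} (hM : 0 ≤ M)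
    (h : ∀ x y : ℝ, α ≤ x → x ≤ α' → ‖F (x + y * I)‖ ≤ M * Real.exp (-δ * y ^ 2)) {x : ℝ}
    (h1 : α ≤ x) (h2 : x ≤ α') (y : ℝ) :
    ‖F (x + y * I)‖ ^ β ≤ M ^ β * Real.exp (-(δ * β) * y ^ 2) := by
  calc ‖F (x + y * I)‖ ^ β ≤ (M * Real.exp (-δ * y ^ 2)) ^ β :=
        Real.rpow_le_rpow (norm_nonneg _) (h x y h1 h2) hβ.le
    _ = _ := by
        rw [Real.mul_rpow hM (Real.exp_pos _).le, ← Real.exp_mul]
        congr 2
        ring

theorem li_int (hF : Differentiable ℂ F) (hβ : 0 < β) (hG : Gd F α α') {x : ℝ} (h1 : α ≤ x)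
    (h2 : x ≤ α') : Integrable (fun y : ℝ => ‖F (x + y * I)‖ ^ β) := by
  obtain ⟨M, δ, hM, hδ, h⟩ := hG
  refine ((integrable_exp_neg_mul_sq (b := δ * β) (by positivity)).const_mul (M ^ β)).mono'
    (li_cont hF hβ x).aestronglyMeasurable (Eventually.of_forall fun y => ?_)
  rw [Real.norm_of_nonneg (by positivity)]
  exact li_bd hβ hM h h1 h2 y

theorem LI_nonneg (F : ℂ → ℂ) (β x : ℝ) : 0 ≤ LI F β x := integral_nonneg fun y => by positivity

theorem LI_lint (hF : Differentiable ℂ F) (hβ : 0 < β) (hG : Gd F α α') {x : ℝ} (h1 : α ≤ x)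
    (h2 : x ≤ α') : ∫⁻ y : ℝ, ENNReal.ofReal (‖F (x + y * I)‖ ^ β) = ENNReal.ofReal (LI F β x) :=
  (ofReal_integral_eq_lintegral_ofReal (li_int hF hβ hG h1 h2)
    (Eventually.of_forall fun y => by positivity)).symm

theorem LI_contOn (hF : Differentiable ℂ F) (hβ : 0 < β) (hG : Gd F α α') :
    ContinuousOn (LI F β) (Icc α α') := by
  obtain ⟨M, δ, hM, hδ, h⟩ := hG
  have hFc := hF.continuous
  refine continuousOn_of_dominated (bound := fun y => M ^ β * Real.exp (-(δ * β) * y ^ 2))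
    (fun x _ => (li_cont hF hβ x).aestronglyMeasurable) (fun x hx => ?_)
    ((integrable_exp_neg_mul_sq (b := δ * β) (by positivity)).const_mul (M ^ β)) ?_
  · refine Eventually.of_forall fun y => ?_
    rw [Real.norm_of_nonneg (by positivity)]
    exact li_bd hβ hM h hx.1 hx.2 y
  · refine Eventually.of_forall fun y => ?_
    refine Continuous.continuousOn (Continuous.rpow_const ?_ fun x => Or.inr hβ.le)
    fun_prop

/-- The circle averages, integrated along the line. -/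
theorem circ_int (hF : Differentiable ℂ F) (hβ : 0 < β) (hG : Gd F α α') {x r : ℝ}
    (hr : 0 < r) (h1 : α ≤ x - r) (h2 : x + r ≤ α') :
    ∫⁻ y : ℝ, ENNReal.ofReal (Real.circleAverage (fun z => ‖F z‖ ^ β) (x + y * I) r) =
      ENNReal.ofReal ((2 * Real.pi)⁻¹) *
        ∫⁻ θ in Ioc 0 (2 * Real.pi), ENNReal.ofReal (LI F β (x + r * Real.cos θ)) := by
  have hFc := hF.continuous
  have hπ := Real.pi_pos
  have hcm : ∀ y θ : ℝ, circleMap ((x : ℂ) + y * I) r θ =
      ((x + r * Real.cos θ : ℝ) : ℂ) + ((y + r * Real.sin θ : ℝ) : ℂ) * I := by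
    intro y θ
    rw [circleMap, Complex.exp_mul_I]
    push_cast
    ring
  have hc2 : Continuous (fun p : ℝ × ℝ => ‖F (circleMap ((x : ℂ) + p.1 * I) r p.2)‖ ^ β) := by
    refine Continuous.rpow_const ?_ fun p => Or.inr hβ.le
    simp only [hcm]
    fun_prop
  have e1 : ∀ y : ℝ, ENNReal.ofReal (Real.circleAverage (fun z => ‖F z‖ ^ β) (x + y * I) r) =
      ENNReal.ofReal ((2 * Real.pi)⁻¹) * ∫⁻ θ in Ioc 0 (2 * Real.pi),
        ENNReal.ofReal (‖F (circleMap ((x : ℂ) + y * I) r θ)‖ ^ β) := by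
    intro y
    have hcy : Continuous (fun θ : ℝ => ‖F (circleMap ((x : ℂ) + y * I) r θ)‖ ^ β) :=
      hc2.comp (continuous_const.prodMk continuous_id)
    rw [Real.circleAverage_def, smul_eq_mul, ENNReal.ofReal_mul (by positivity),
      intervalIntegral.integral_of_le (by positivity), ofReal_integral_eq_lintegral_ofReal
        (hcy.integrableOn_Ioc) (Eventually.of_forall fun θ => by positivity)]
  simp_rw [e1]
  have hm : Measurable (fun p : ℝ × ℝ =>
      ENNReal.ofReal (‖F (circleMap ((x : ℂ) + p.1 * I) r p.2)‖ ^ β)) :=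
    hc2.measurable.ennreal_ofReal
  rw [lintegral_const_mul _ (Measurable.lintegral_prod_right hm),
    lintegral_lintegral_swap hm.aemeasurable]
  congr 1
  refine setLIntegral_congr_fun measurableSet_Ioc fun θ _ => ?_
  have hcos := Real.neg_one_le_cos θ
  have hcos' := Real.cos_le_one θ
  simp only [hcm]
  rw [lintegral_add_right_eq_self (fun y : ℝ =>
    ENNReal.ofReal (‖F (((x + r * Real.cos θ : ℝ) : ℂ) + (y : ℂ) * I)‖ ^ β)) (r * Real.sin θ)]
  exact LI_lint hF hβ hG (by nlinarith) (by nlinarith)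

/-- The sub-mean value inequality with zeros. -/
theorem submean_zeros (hF : Differentiable ℂ F) (hβ : 0 < β) (hG : Gd F α α') {x r : ℝ}
    (hr : 0 < r) (h1 : α ≤ x - r) (h2 : x + r ≤ α') :
    ∫⁻ y : ℝ, ENNReal.ofReal (‖F (x + y * I)‖ ^ β * Real.exp (β * NN F (x + y * I) r)) ≤
      ENNReal.ofReal ((2 * Real.pi)⁻¹) *
        ∫⁻ θ in Ioc 0 (2 * Real.pi), ENNReal.ofReal (LI F β (x + r * Real.cos θ)) := by
  rw [← circ_int hF hβ hG hr h1 h2]
  exact lintegral_mono fun y => ENNReal.ofReal_le_ofReal (jensen_ineq hF hr hβ)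

theorem LIcos_int (hF : Differentiable ℂ F) (hβ : 0 < β) (hG : Gd F α α') {x r : ℝ}
    (hr : 0 < r) (h1 : α ≤ x - r) (h2 : x + r ≤ α') :
    ContinuousOn (fun θ : ℝ => LI F β (x + r * Real.cos θ)) univ := by
  refine (LI_contOn hF hβ hG).comp (by fun_prop) fun θ _ => ?_
  have hcos := Real.neg_one_le_cos θ
  have hcos' := Real.cos_le_one θ
  exact ⟨by nlinarith, by nlinarith⟩

/-- The sub-mean value inequality. -/
theorem submean (hF : Differentiable ℂ F) (hβ : 0 < β) (hG : Gd F α α') {x r : ℝ}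
    (hr : 0 < r) (h1 : α ≤ x - r) (h2 : x + r ≤ α') :
    LI F β x ≤ (2 * Real.pi)⁻¹ * ∫ θ in (0 : ℝ)..(2 * Real.pi), LI F β (x + r * Real.cos θ) := by
  have hπ := Real.pi_pos
  have hc := continuousOn_univ.mp (LIcos_int hF hβ hG hr h1 h2)
  have hi : 0 ≤ ∫ θ in (0 : ℝ)..(2 * Real.pi), LI F β (x + r * Real.cos θ) :=
    intervalIntegral.integral_nonneg (by positivity) fun θ _ => LI_nonneg _ _ _
  rw [← ENNReal.ofReal_le_ofReal_iff (by positivity), ENNReal.ofReal_mul (by positivity),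
    intervalIntegral.integral_of_le (by positivity), ofReal_integral_eq_lintegral_ofReal
      hc.integrableOn_Ioc (Eventually.of_forall fun θ => LI_nonneg _ _ _),
    ← LI_lint hF hβ hG (by linarith) (by linarith)]
  refine le_trans (lintegral_mono fun y => ENNReal.ofReal_le_ofReal ?_)
    (submean_zeros hF hβ hG hr h1 h2)
  have := NN_nonneg hF ((x : ℂ) + y * I) hr
  exact le_mul_of_one_le_right (by positivity) (Real.one_le_exp (by positivity))

end

end Q97.RB
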