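import Pool.Agent.Q97.RB.Tz

set_option autoImplicit false

open Filter MeasureTheory Metric Set Topology Complex MeromorphicOn
open scoped ENNReal

namespace Q97.RB

open Q97.MM

noncomputable section

/-- Jensen's inequality for the exponential function in the form of lower integrals. -/
theorem jensen_lint {w g : ℝ → ℝ} (hw : Measurable w) (hw0 : ∀ y, 0 ≤ w y) (hg0 : ∀ y, 0 ≤ g y)
    (hwi : Integrable w) {K : ℝ} (hK : 1 ≤ K)
    (h : ∫⁻ y : ℝ, ENNReal.ofReal (Real.exp (g y) * w y) ≤ ENNReal.ofReal (K * ∫ y, w y)) :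
    ∫⁻ y : ℝ, ENNReal.ofReal (g y * w y) ≤ ENNReal.ofReal (Real.log K * ∫ y, w y) := by
  set M := ∫ y, w y with hM
  have hM0 : 0 ≤ M := integral_nonneg hw0
  have hK0 : 0 < K := by linarith
  have hlK : 0 ≤ Real.log K := Real.log_nonneg hK
  have hwl : ∫⁻ y : ℝ, ENNReal.ofReal (w y) = ENNReal.ofReal M := by
    rw [hM, ofReal_integral_eq_lintegral_ofReal hwi (Eventually.of_forall hw0)]
  have h1 : ∀ y : ℝ, ENNReal.ofReal K * ENNReal.ofReal (g y * w y) + ENNReal.ofReal K *
      ENNReal.ofReal (w y) ≤ ENNReal.ofReal (Real.exp (g y) * w y) +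
      ENNReal.ofReal (K * Real.log K) * ENNReal.ofReal (w y) := by
    intro y
    have a1 := hw0 y
    have a2 := hg0 y
    rw [← ENNReal.ofReal_mul hK0.le, ← ENNReal.ofReal_mul hK0.le, ← ENNReal.ofReal_mul (by positivity),
      ← ENNReal.ofReal_add (by positivity) (by positivity),
      ← ENNReal.ofReal_add (by positivity) (by positivity)]
    apply ENNReal.ofReal_le_ofReal
    have h2 : K * (g y - Real.log K + 1) ≤ Real.exp (g y) := by
      have h3 := Real.add_one_le_exp (g y - Real.log K)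
      have h4 : Real.exp (g y) = K * Real.exp (g y - Real.log K) := by
        rw [Real.exp_sub, Real.exp_log hK0]
        field_simp
      rw [h4]
      gcongr
    have h5 := mul_le_mul_of_nonneg_right h2 a1
    linarith
  have h2 : ENNReal.ofReal K * (∫⁻ y : ℝ, ENNReal.ofReal (g y * w y)) + ENNReal.ofReal K *
      ENNReal.ofReal M ≤ ENNReal.ofReal K * ENNReal.ofReal (Real.log K * M) + ENNReal.ofReal K *
      ENNReal.ofReal M := by
    calc ENNReal.ofReal K * (∫⁻ y : ℝ, ENNReal.ofReal (g y * w y)) + ENNReal.ofReal K *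
          ENNReal.ofReal M
        = ∫⁻ y : ℝ, (ENNReal.ofReal K * ENNReal.ofReal (g y * w y) + ENNReal.ofReal K *
          ENNReal.ofReal (w y)) := by
          rw [lintegral_add_right _ (by fun_prop), lintegral_const_mul' _ _ ENNReal.ofReal_ne_top,
            lintegral_const_mul' _ _ ENNReal.ofReal_ne_top, hwl]
      _ ≤ ∫⁻ y : ℝ, (ENNReal.ofReal (Real.exp (g y) * w y) +
          ENNReal.ofReal (K * Real.log K) * ENNReal.ofReal (w y)) := lintegral_mono h1
      _ = (∫⁻ y : ℝ, ENNReal.ofReal (Real.exp (g y) * w y)) +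
          ENNReal.ofReal (K * Real.log K) * ENNReal.ofReal M := by
          rw [lintegral_add_right _ (by fun_prop), lintegral_const_mul' _ _ ENNReal.ofReal_ne_top, hwl]
      _ ≤ ENNReal.ofReal (K * M) + ENNReal.ofReal (K * Real.log K) * ENNReal.ofReal M := by
          gcongr
      _ = _ := by
          rw [← ENNReal.ofReal_mul (by positivity), ← ENNReal.ofReal_mul (by positivity),
            ← ENNReal.ofReal_mul (by positivity), add_comm]
          congr 2
          ring
  have h3 := (ENNReal.add_le_add_iff_right (by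
    exact ENNReal.mul_ne_top ENNReal.ofReal_ne_top ENNReal.ofReal_ne_top)).mp h2
  have hK1 : ENNReal.ofReal K ≠ 0 := by
    rw [Ne, ENNReal.ofReal_eq_zero]
    linarith
  exact (ENNReal.mul_le_mul_iff_right hK1 ENNReal.ofReal_ne_top).mp h3

theorem zw_meas {β : ℝ} (hβ : 0 < β) (T U : ℝ) :
    Continuous (fun y : ℝ => ‖riemannZeta (((1 / 2 : ℝ) : ℂ) + y * I)‖ ^ β * wt T U y) := by
  have h1 : Continuous (fun y : ℝ => riemannZeta (((1 / 2 : ℝ) : ℂ) + y * I)) := by
    rw [continuous_iff_continuousAt]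
    intro y
    have hne : ((1 / 2 : ℝ) : ℂ) + y * I ≠ 1 := by
      intro h0
      have := congrArg Complex.re h0
      simp at this
    have h2 := (differentiableAt_riemannZeta hne).continuousAt
    exact ContinuousAt.comp (f := fun y : ℝ => ((1 / 2 : ℝ) : ℂ) + y * I) h2 (by fun_prop)
  have h3 : Continuous (wt T U) := by
    unfold wt
    fun_prop
  exact (h1.norm.rpow_const fun y => Or.inr hβ.le).mul h3

/-- The mean of the logarithmic counting function. -/
theorem mean_log {β : ℝ} (hβ : 0 < β) {A : ℝ} (hA : 0 < A) {ε : ℝ} (hε : 0 < ε) :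
    ∀ᶠ T : ℝ in atTop, ∀ U : ℝ, Adm T U →
      ∫⁻ y : ℝ, ENNReal.ofReal (logcount (((1 / 2 : ℝ) : ℂ) + y * I) (A / Real.log T) *
        (‖riemannZeta (((1 / 2 : ℝ) : ℂ) + y * I)‖ ^ β * wt T U y)) ≤
      ENNReal.ofReal ((A + ε) * MB β T U (1 / 2)) := by
  have he : 0 < β * ε := by positivity
  filter_upwards [tilted hβ hA he] with T h1 U h
  have hL := h.log
  have hU : 0 < U := lt_of_lt_of_le one_pos h.2.1
  have hT0 : 0 < T := by linarith [h.1]
  have hUT : U ≤ T := h.2.2.trans (div_le_self hT0.le hL)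
  set K := Real.exp (β * A) + β * ε with hK
  have hK1 : 1 ≤ K := by
    have := Real.one_le_exp (x := β * A) (by positivity)
    linarith
  have hlK : Real.log K ≤ β * (A + ε) := by
    have h2 : K ≤ Real.exp (β * A) * Real.exp (β * ε) := by
      have h3 := Real.add_one_le_exp (β * ε)
      have h4 := Real.one_le_exp (x := β * A) (by positivity)
      have h5 : Real.exp (β * A) * (β * ε + 1) ≤ Real.exp (β * A) * Real.exp (β * ε) := by gcongr
      have h6 : β * ε ≤ Real.exp (β * A) * (β * ε) := le_mul_of_one_le_left he.le h4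
      linarith
    calc Real.log K ≤ Real.log (Real.exp (β * A) * Real.exp (β * ε)) :=
          Real.log_le_log (by linarith) h2
      _ = β * (A + ε) := by
          rw [← Real.exp_add, Real.log_exp]
          ring
  have hr0 : 0 < A / Real.log T := by positivity
  have h2 := (h1 U h).2
  have h3 := jensen_lint (w := fun y : ℝ => ‖riemannZeta (((1 / 2 : ℝ) : ℂ) + y * I)‖ ^ β * wt T U y)
    (g := fun y : ℝ => β * logcount (((1 / 2 : ℝ) : ℂ) + y * I) (A / Real.log T))
    (zw_meas hβ T U).measurable (fun y => by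
      have := wt_pos T U y
      positivity) (fun y => mul_nonneg hβ.le (logcount_nonneg _ hr0))
    (MB_integrable hβ hU hT0.le hUT (by norm_num) (by norm_num)) hK1 h2
  have hM := MB_nonneg β T U (1 / 2)
  have h4 : ENNReal.ofReal β * (∫⁻ y : ℝ, ENNReal.ofReal (logcount (((1 / 2 : ℝ) : ℂ) + y * I)
      (A / Real.log T) * (‖riemannZeta (((1 / 2 : ℝ) : ℂ) + y * I)‖ ^ β * wt T U y))) ≤
      ENNReal.ofReal β * ENNReal.ofReal ((A + ε) * MB β T U (1 / 2)) := by
    rw [← lintegral_const_mul' _ _ ENNReal.ofReal_ne_top, ← ENNReal.ofReal_mul hβ.le]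
    calc _ ≤ ENNReal.ofReal (Real.log K * MB β T U (1 / 2)) := by
          refine le_trans (le_of_eq ?_) h3
          refine lintegral_congr fun y => ?_
          rw [← ENNReal.ofReal_mul hβ.le]
          congr 1
          ring
      _ ≤ _ := by
          apply ENNReal.ofReal_le_ofReal
          calc Real.log K * MB β T U (1 / 2) ≤ (β * (A + ε)) * MB β T U (1 / 2) := by gcongr
            _ = _ := by ring
  have hb : ENNReal.ofReal β ≠ 0 := by
    rw [Ne, ENNReal.ofReal_eq_zero]
    linarith
  exact (ENNReal.mul_le_mul_iff_right hb ENNReal.ofReal_ne_top).mp h4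

/-- The mean number of zeros. -/
theorem mean_count {β : ℝ} (hβ : 0 < β) {R : ℝ} (hR : 0 < R) {ε : ℝ} (hε : 0 < ε) :
    ∀ᶠ T : ℝ in atTop, ∀ U : ℝ, Adm T U →
      ∫⁻ y : ℝ, ENNReal.ofReal (count (((1 / 2 : ℝ) : ℂ) + y * I) (R / Real.log T) *
        (‖riemannZeta (((1 / 2 : ℝ) : ℂ) + y * I)‖ ^ β * wt T U y)) ≤
      ENNReal.ofReal ((Real.exp 1 * R + ε) * MB β T U (1 / 2)) := by
  have hA : 0 < Real.exp 1 * R := by positivity
  filter_upwards [mean_log hβ hA hε] with T h1 U h
  refine le_trans (lintegral_mono fun y => ENNReal.ofReal_le_ofReal ?_) (h1 U h)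
  have hL := h.log
  have hw := wt_pos T U y
  set c : ℂ := ((1 / 2 : ℝ) : ℂ) + y * I with hc
  by_cases h0 : riemannZeta c = 0
  · rw [h0, norm_zero, Real.zero_rpow hβ.ne']
    simp
  · have h2 := count_le h0 (r := R / Real.log T) (q := 1) (by positivity) (by norm_num)
    have e1 : R / Real.log T * Real.exp 1 = Real.exp 1 * R / Real.log T := by ring
    rw [e1, one_mul] at h2
    gcongr

end

end Q97.RB
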