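import Pool.Agent.Q97.RB.Cm2

set_option autoImplicit false

open Filter MeasureTheory Metric Set Topology Complex

namespace Q97.RB

open Q97.MM

noncomputable section

theorem GB_zero {β T U : ℝ} (hβ : 0 < β) (h : Adm T U) : GB β T U 0 = 1 := by
  have hV0 := HB_pos hβ h (x := 1 / 2) (by norm_num) (by norm_num)
  unfold GB
  rw [zero_div, add_zero, div_self hV0.ne']

/-- The bound to the left. -/
theorem GB_neg_le {β : ℝ} (hβ : 0 < β) {a : ℝ} (ha : 0 ≤ a) {ε : ℝ} (hε : 0 < ε) :
    ∀ᶠ T : ℝ in atTop, ∀ U : ℝ, Adm T U →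
      GB β T U (-a) ≤ Real.exp (β * a) * GB β T U a + ε := by
  set K := Real.exp (β * a) with hK
  have hK1 : 1 ≤ K := Real.one_le_exp (by positivity)
  have hK0 : 0 < K := Real.exp_pos _
  set e := min (1 / 2) (ε / (30 * K)) with he
  have he0 : 0 < e := lt_min (by norm_num) (by positivity)
  have he1 : e ≤ 1 / 2 := min_le_left _ _
  have he2 : 30 * K * e ≤ ε := by
    have : e ≤ ε / (30 * K) := min_le_right _ _
    rw [le_div_iff₀ (by positivity)] at this
    linarith
  filter_upwards [F1 hβ a he0, F1 hβ (-a) he0, F2 hβ ha he0, GB_le hβ ha one_pos,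
    eventually_ge_atTop 3] with T h1 h2 h3 h4 hT U h
  have g1 := abs_le.mp (h1 U h)
  have g2 := abs_le.mp (h2 U h)
  have g3 := abs_le.mp (h3 U h)
  have g4 := h4 U h
  have p1 := GB_nonneg β T U a
  have p2 := GB_nonneg β T U (-a)
  have p3 := JB_nonneg β (by linarith : 0 < T) U a
  have p4 := JB_nonneg β (by linarith : 0 < T) U (-a)
  set G := GB β T U a
  set G' := GB β T U (-a)
  set J := JB β T U a
  set J' := JB β T U (-a)
  -- `J ≤ (1 + e) G + e ≤ 4`
  have q1 : J ≤ G + e * G + e := by linarith [g1.1]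
  have q1' : J ≤ 4 := by nlinarith
  -- `J' ≤ (1 + e) K J + e`
  have q2 : J' ≤ K * J + e * (K * J) + e := by linarith [g3.1]
  have q2' : K * J ≤ K * G + K * (e * G + e) := by nlinarith
  have q2'' : J' ≤ 7 * K := by nlinarith [mul_le_mul_of_nonneg_left q1' hK0.le]
  have q3 : G' - e * G' ≤ J' + e := by linarith [g2.2]
  have q4 : G' ≤ 16 * K := by nlinarith
  have q5 : K * (e * G + e) ≤ 3 * K * e := by
    have : e * G ≤ e * 2 := by nlinarith
    nlinarith
  have q6 : e * (K * J) ≤ 4 * K * e := by nlinarith [mul_le_mul_of_nonneg_left q1' hK0.le]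
  have q7 : e * G' ≤ 16 * K * e := by nlinarith
  have q8 : e ≤ K * e := by nlinarith
  nlinarith

/-- The uniform bound in a neighbourhood of the critical line. -/
theorem HB_unif {β : ℝ} (hβ : 0 < β) {A : ℝ} (hA : 0 < A) {ε : ℝ} (hε : 0 < ε) :
    ∀ᶠ T : ℝ in atTop, ∀ U : ℝ, Adm T U → ∀ x : ℝ, |x - 1 / 2| ≤ A / Real.log T →
      HB β T U x ≤ (Real.exp (β * A) + ε) * HB β T U (1 / 2) := by
  set K := Real.exp (β * A) with hK
  have hK1 : 1 ≤ K := Real.one_le_exp (by positivity)
  set e := min 1 (ε / (2 * K)) with he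
  have he0 : 0 < e := lt_min one_pos (by positivity)
  have he1 : e ≤ ε := by
    refine (min_le_right _ _).trans ?_
    rw [div_le_iff₀ (by positivity)]
    nlinarith
  have he2 : K * e ≤ ε / 2 := by
    have : e ≤ ε / (2 * K) := min_le_right _ _
    rw [le_div_iff₀ (by positivity)] at this
    nlinarith
  filter_upwards [GB_le hβ hA.le he0, GB_neg_le hβ hA.le (half_pos hε),
    (log_div_tendsto A).eventually (gt_mem_nhds (show (0 : ℝ) < 1 / 4 by norm_num))]
    with T h1 h2 h3 U h x hx
  have hL := h.log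
  have hT : 0 < T := by linarith [h.1]
  have hr0 : 0 < A / Real.log T := by positivity
  rw [abs_of_pos hr0] at h3
  set r := A / Real.log T with hr
  have hV0 := HB_pos hβ h (x := 1 / 2) (by norm_num) (by norm_num)
  have hG := FB_gd hβ T h.pos
  have hG' : Gd (FB β T U) (1 / 2 - r) (1 / 2 + r) := Gd_mono hG (by linarith) (by linarith)
  have hmp := max_principle (LI_contOn (FB_diff β T U) hβ hG')
    (fun x r' hr' ha hb => submean (FB_diff β T U) hβ hG' hr' ha hb)
  have hx' := abs_le.mp hx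
  have h4 := hmp x ⟨by linarith [hx'.1], by linarith [hx'.2]⟩
  have g1 := h1 U h
  have g2 := h2 U h
  have g3 : GB β T U (-A) ≤ K + ε := by nlinarith
  have g4 : HB β T U (1 / 2 + r) ≤ (K + ε) * HB β T U (1 / 2) := by
    unfold GB at g1
    rw [div_le_iff₀ hV0] at g1
    refine g1.trans ?_
    apply mul_le_mul_of_nonneg_right _ hV0.le
    linarith
  have g5 : HB β T U (1 / 2 - r) ≤ (K + ε) * HB β T U (1 / 2) := by
    unfold GB at g3
    rw [div_le_iff₀ hV0, neg_div, ← sub_eq_add_neg] at g3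
    exact g3
  exact h4.trans (max_le g5 g4)

end

end Q97.RB
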