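import Pool.Agent.Q97.RB.Gab
import Pool.Agent.Q97.BS.Trf

set_option autoImplicit false

open Filter MeasureTheory Metric Set Topology Complex

namespace Q97.RB

open Q97.MM

noncomputable section

theorem LI_pos {F : ℂ → ℂ} {α α' β : ℝ} (hF : Differentiable ℂ F) (hβ : 0 < β) (hG : Gd F α α')
    {c : ℂ} (hc : F c ≠ 0) {x : ℝ} (h1 : α ≤ x) (h2 : x ≤ α') : 0 < LI F β x := by
  rcases (LI_nonneg F β x).lt_or_eq with h | h
  · exact h
  · exfalso
    have h3 : (fun y : ℝ => ‖F (x + y * I)‖ ^ β) =ᵐ[volume] 0 := by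
      rw [← integral_eq_zero_iff_of_nonneg (fun y => by positivity) (li_int hF hβ hG h1 h2)]
      exact h.symm
    have h4 : (fun y : ℝ => ‖F (x + y * I)‖ ^ β) = fun _ => (0 : ℝ) :=
      (Continuous.ae_eq_iff_eq volume (li_cont hF hβ x) continuous_const).mp h3
    have h5 : ∀ y : ℝ, F (x + y * I) = 0 := by
      intro y
      have h6 : ‖F (x + y * I)‖ ^ β = 0 := congrFun h4 y
      by_contra hne
      have : 0 < ‖F (x + y * I)‖ ^ β := Real.rpow_pos_of_pos (norm_pos_iff.mpr hne) _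
      linarith
    have hA : AnalyticOnNhd ℂ F univ := fun z _ => hF.analyticAt z
    have hA0 : AnalyticOnNhd ℂ (fun _ : ℂ => (0 : ℂ)) univ := fun z _ => analyticAt_const
    have ht : Tendsto (fun y : ℝ => (x : ℂ) + y * I) (𝓝[≠] 0) (𝓝[≠] (x : ℂ)) := by
      rw [tendsto_nhdsWithin_iff]
      constructor
      · have : Continuous (fun y : ℝ => (x : ℂ) + y * I) := by fun_prop
        have h7 := this.tendsto 0
        simp only [Complex.ofReal_zero, zero_mul, add_zero] at h7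
        exact h7.mono_left nhdsWithin_le_nhds
      · filter_upwards [self_mem_nhdsWithin] with y hy
        simp only [mem_compl_iff, mem_singleton_iff] at hy ⊢
        intro h8
        apply hy
        have := congrArg Complex.im h8
        simpa using this
    have hfr : ∃ᶠ z in 𝓝[≠] (x : ℂ), F z = (fun _ : ℂ => (0 : ℂ)) z := by
      refine ht.frequently (p := fun z => F z = 0) ?_
      exact Frequently.of_forall h5
    have h9 := hA.eq_of_frequently_eq hA0 hfr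
    exact hc (congrFun h9 c)

/-- the function whose mean of order `β` is the windowed moment of `(s - 1) ζ(s)` -/
def FB (β T U : ℝ) : ℂ → ℂ := FF 1 T (U * √(β / 2))

theorem FB_diff (β T U : ℝ) : Differentiable ℂ (FB β T U) := FF_differentiable _ _ _

theorem FB_gd {β : ℝ} (hβ : 0 < β) (T : ℝ) {U : ℝ} (hU : 0 < U) : Gd (FB β T U) (1 / 4) 3 := by
  have hV : 0 < U * √(β / 2) := mul_pos hU (Real.sqrt_pos.2 (by positivity))
  obtain ⟨M, δ, hM, hδ, h⟩ := FF_bd 1 T hV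
  exact ⟨M, δ, hM, hδ, h⟩

theorem FB_pow {β T U : ℝ} (hβ : 0 < β) (hU : 0 < U) (x y : ℝ) :
    ‖FB β T U (x + y * I)‖ ^ β =
      Real.exp ((x - 1 / 2) ^ 2 / U ^ 2) * (‖Z1 (x + y * I)‖ ^ β * wt T U y) := by
  have h3 : 2 * (U * √(β / 2)) ^ 2 = β * U ^ 2 := by
    rw [mul_pow, Real.sq_sqrt (by positivity)]
    ring
  rw [FB, FF_norm, pow_one, h3, Real.mul_rpow (norm_nonneg _) (Real.exp_pos _).le, ← Real.exp_mul, wt]
  have e1 : ((x - 1 / 2) ^ 2 - (y - T) ^ 2) / (β * U ^ 2) * β =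
      (x - 1 / 2) ^ 2 / U ^ 2 + -((y - T) / U) ^ 2 := by
    rw [div_pow]
    field_simp
    ring
  rw [e1, Real.exp_add]
  ring

/-- the mean -/
def HB (β T U x : ℝ) : ℝ := LI (FB β T U) β x

/-- the windowed moment of `(s - 1) ζ(s)` -/
def PB (β T U x : ℝ) : ℝ := ∫ y : ℝ, ‖Z1 (x + y * I)‖ ^ β * wt T U y

theorem HB_eq {β T U : ℝ} (hβ : 0 < β) (hU : 0 < U) (x : ℝ) :
    HB β T U x = Real.exp ((x - 1 / 2) ^ 2 / U ^ 2) * PB β T U x := by
  unfold HB LI PB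
  rw [← integral_const_mul]
  exact integral_congr_ae (Eventually.of_forall fun y => FB_pow hβ hU x y)

theorem Z1_rpow_bd {β : ℝ} (hβ : 0 < β) {x : ℝ} (h1 : 1 / 4 ≤ x) (h2 : x ≤ 3) (y : ℝ) :
    ‖Z1 (x + y * I)‖ ^ β ≤ 45 ^ β * (1 + |y|) ^ ⌈2 * β⌉₊ :=
  Q97.BS.rpow_bd (norm_nonneg _) hβ (by norm_num) (Z1_growth h1 h2)

theorem PB_integrable {β : ℝ} (hβ : 0 < β) {T U x : ℝ} (hU : 0 < U) (hT : 0 ≤ T) (hUT : U ≤ T)
    (h1 : 1 / 4 ≤ x) (h2 : x ≤ 3) :
    Integrable (fun y : ℝ => ‖Z1 (x + y * I)‖ ^ β * wt T U y) :=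
  poly_wt_integrable ⌈2 * β⌉₊ (C₀ := 45 ^ β) hU hT hUT
    ((Z1_cont_line x).norm.rpow_const fun y => Or.inr hβ.le).aestronglyMeasurable (fun y => by
      rw [abs_of_nonneg (by positivity)]
      exact Z1_rpow_bd hβ h1 h2 y)

theorem PB_nonneg (β T U x : ℝ) : 0 ≤ PB β T U x :=
  integral_nonneg fun y => mul_nonneg (by positivity) (wt_pos _ _ _).le

theorem HB_nonneg (β T U x : ℝ) : 0 ≤ HB β T U x := LI_nonneg _ _ _

theorem PB_upper {β : ℝ} (hβ : 0 < β) {B x : ℝ} (h1 : 1 < x) (h2 : x ≤ 3)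
    (hB : ∀ y : ℝ, ‖riemannZeta (x + (y : ℂ) * I)‖ ≤ B) {T U : ℝ} (hT : 3 ≤ T) (hU : 0 < U)
    (hUT : U ≤ T) :
    PB β T U x ≤ (6 * B) ^ β * KK ⌈β⌉₊ * (T ^ β * U) := by
  have hB0 : 0 ≤ B := (norm_nonneg _).trans (hB 0)
  have hT0 : 0 ≤ T := by linarith
  have hpt : ∀ y : ℝ, ‖Z1 (x + y * I)‖ ^ β * wt T U y ≤
      (6 * B) ^ β * T ^ β *
        ((1 + |(y - T) / U|) ^ ⌈β⌉₊ * Real.exp (-(((y - T) / U) ^ 2 / 2))) := by
    intro y
    have e1 : ‖Z1 (x + y * I)‖ ≤ 6 * B * T * (1 + |(y - T) / U|) := by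
      rw [Z1_of_ne (ne_one_of_re h1.ne' y), norm_mul]
      have a1 := norm_sub_one_le h1.le h2 y
      have a2 := abs_le_scaled hU hT0 hUT y
      have a3 : (1 + T) * (1 + |(y - T) / U|) ≤ (2 * T) * (1 + |(y - T) / U|) := by
        gcongr
        linarith
      calc ‖(x : ℂ) + y * I - 1‖ * ‖riemannZeta (x + y * I)‖
          ≤ (3 * ((2 * T) * (1 + |(y - T) / U|))) * B := by
            apply mul_le_mul _ (hB y) (norm_nonneg _) (by positivity)
            linarith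
        _ = _ := by ring
    have e2 : wt T U y ≤ Real.exp (-(((y - T) / U) ^ 2 / 2)) := by
      unfold wt
      apply Real.exp_le_exp.2
      nlinarith [sq_nonneg ((y - T) / U)]
    have e3 : (1 + |(y - T) / U|) ^ β ≤ (1 + |(y - T) / U|) ^ ⌈β⌉₊ := by
      rw [← Real.rpow_natCast]
      exact Real.rpow_le_rpow_of_exponent_le (by linarith [abs_nonneg ((y - T) / U)]) (Nat.le_ceil _)
    calc ‖Z1 (x + y * I)‖ ^ β * wt T U y
        ≤ (6 * B * T * (1 + |(y - T) / U|)) ^ β * Real.exp (-(((y - T) / U) ^ 2 / 2)) :=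
          mul_le_mul (Real.rpow_le_rpow (norm_nonneg _) e1 hβ.le) e2 (wt_pos _ _ _).le (by positivity)
      _ = (6 * B) ^ β * T ^ β * (1 + |(y - T) / U|) ^ β * Real.exp (-(((y - T) / U) ^ 2 / 2)) := by
          rw [Real.mul_rpow (by positivity) (by positivity), Real.mul_rpow (by positivity) hT0]
      _ ≤ (6 * B) ^ β * T ^ β * (1 + |(y - T) / U|) ^ ⌈β⌉₊ *
            Real.exp (-(((y - T) / U) ^ 2 / 2)) := by gcongr
      _ = _ := by ring
  have h := integral_mono (PB_integrable hβ hU hT0 hUT (by linarith) h2)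
    ((scaled_integrable ⌈β⌉₊ T hU).const_mul ((6 * B) ^ β * T ^ β)) hpt
  rw [integral_const_mul, scaled_integral ⌈β⌉₊ T hU] at h
  refine h.trans (le_of_eq ?_)
  ring

theorem PB_lower {β : ℝ} (hβ : 0 < β) {T U : ℝ} (hT : 3 ≤ T) (hU : 0 < U) (hUT : U ≤ T) :
    (1 / 6) ^ β * Real.exp (-1) * (T ^ β * U) ≤ PB β T U 2 := by
  have hT0 : 0 ≤ T := by linarith
  have hi := PB_integrable hβ hU hT0 hUT (x := 2) (by norm_num) (by norm_num)
  have hpt : ∀ y ∈ Icc (T - U / 2) (T + U / 2),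
      (T / 6) ^ β * Real.exp (-1) ≤ ‖Z1 ((2 : ℝ) + y * I)‖ ^ β * wt T U y := by
    intro y hy
    have hy1 : T / 2 ≤ y := by linarith [hy.1]
    have e1 : T / 6 ≤ ‖Z1 ((2 : ℝ) + y * I)‖ := by
      rw [Z1_of_ne (ne_one_of_re (by norm_num) y), norm_mul]
      have a1 : y ≤ ‖((2 : ℝ) : ℂ) + y * I - 1‖ := by
        have := Complex.abs_im_le_norm (((2 : ℝ) : ℂ) + y * I - 1)
        have e : (((2 : ℝ) : ℂ) + y * I - 1).im = y := by simp
        rw [e] at this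
        exact (le_abs_self y).trans this
      have a2 := H345.Chi.zeta_two_lower y
      have a3 : ((2 : ℝ) : ℂ) + y * I = 2 + y * I := by push_cast; ring
      rw [a3] at a1 ⊢
      calc T / 6 = (T / 2) * (1 / 3) := by ring
        _ ≤ ‖(2 : ℂ) + y * I - 1‖ * ‖riemannZeta (2 + y * I)‖ :=
          mul_le_mul (by linarith) a2 (by norm_num) (norm_nonneg _)
    have e2 : Real.exp (-1) ≤ wt T U y := by
      unfold wt
      apply Real.exp_le_exp.2
      have b1 : |(y - T) / U| ≤ 1 := by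
        rw [abs_div, abs_of_pos hU, div_le_iff₀ hU, abs_le]
        constructor <;> linarith [hy.1, hy.2]
      have b2 : ((y - T) / U) ^ 2 ≤ 1 := by
        rw [← sq_abs]
        exact pow_le_one₀ (abs_nonneg _) b1
      linarith
    exact mul_le_mul (Real.rpow_le_rpow (by positivity) e1 hβ.le) e2 (Real.exp_pos _).le
      (by positivity)
  have h1 : ∫ y in Icc (T - U / 2) (T + U / 2), (T / 6) ^ β * Real.exp (-1) ≤
      ∫ y in Icc (T - U / 2) (T + U / 2), ‖Z1 ((2 : ℝ) + y * I)‖ ^ β * wt T U y := by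
    refine setIntegral_mono_on (integrableOn_const (μ := volume) (by simp) enorm_ne_top) hi.integrableOn
      measurableSet_Icc hpt
  have h2 : ∫ y in Icc (T - U / 2) (T + U / 2), ‖Z1 ((2 : ℝ) + y * I)‖ ^ β * wt T U y ≤
      PB β T U 2 :=
    setIntegral_le_integral hi (Eventually.of_forall fun y =>
      mul_nonneg (by positivity) (wt_pos _ _ _).le)
  rw [setIntegral_const, Measure.real, Real.volume_Icc, ENNReal.toReal_ofReal (by linarith),
    smul_eq_mul] at h1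
  refine (le_trans (le_of_eq ?_) h1).trans h2
  rw [Real.div_rpow (by norm_num) (by norm_num), Real.div_rpow hT0 (by norm_num), Real.one_rpow]
  ring

theorem HB_two_lower {β : ℝ} (hβ : 0 < β) : ∃ c : ℝ, 0 < c ∧ ∀ T U : ℝ, Adm T U →
    c * (T ^ β * U) ≤ HB β T U 2 := by
  refine ⟨(1 / 6) ^ β * Real.exp (-1), by positivity, fun T U h => ?_⟩
  have h0 := PB_lower hβ h.1 h.pos h.le
  rw [HB_eq hβ h.pos]
  refine h0.trans ?_
  exact le_mul_of_one_le_left (PB_nonneg _ _ _ _) (Real.one_le_exp (by positivity))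

theorem HB_upper {β : ℝ} (hβ : 0 < β) {B x : ℝ} (h1 : 1 < x) (h2 : x ≤ 3)
    (hB : ∀ y : ℝ, ‖riemannZeta (x + (y : ℂ) * I)‖ ≤ B) : ∃ C : ℝ, 0 < C ∧ ∀ T U : ℝ, Adm T U →
    HB β T U x ≤ C * (T ^ β * U) := by
  have hB0 : 0 ≤ B := (norm_nonneg _).trans (hB 0)
  refine ⟨Real.exp (25 / 4) * ((6 * B) ^ β * KK ⌈β⌉₊ + 1),
    by have := KK_nonneg ⌈β⌉₊; positivity, fun T U h => ?_⟩
  have hp := PB_upper hβ h1 h2 hB h.1 h.pos h.le
  rw [HB_eq hβ h.pos]
  have h3 : Real.exp ((x - 1 / 2) ^ 2 / U ^ 2) ≤ Real.exp (25 / 4) := by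
    apply Real.exp_le_exp.2
    have h4 : (x - 1 / 2) ^ 2 ≤ 25 / 4 := by nlinarith
    have h5 : (x - 1 / 2) ^ 2 / U ^ 2 ≤ (x - 1 / 2) ^ 2 := by
      apply div_le_self (sq_nonneg _)
      nlinarith [h.2.1]
    linarith
  have hK := KK_nonneg ⌈β⌉₊
  have hT : 0 ≤ T := by linarith [h.1]
  have hU := h.pos
  have h5 : PB β T U x ≤ ((6 * B) ^ β * KK ⌈β⌉₊ + 1) * (T ^ β * U) := by
    refine hp.trans ?_
    apply mul_le_mul_of_nonneg_right _ (by positivity)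
    linarith
  calc Real.exp ((x - 1 / 2) ^ 2 / U ^ 2) * PB β T U x
      ≤ Real.exp (25 / 4) * (((6 * B) ^ β * KK ⌈β⌉₊ + 1) * (T ^ β * U)) :=
        mul_le_mul h3 h5 (PB_nonneg _ _ _ _) (Real.exp_pos _).le
    _ = _ := by ring

theorem FB_ne (β T U : ℝ) : FB β T U 1 ≠ 0 := by
  unfold FB FF
  rw [Z1_one, one_pow, one_mul]
  exact Complex.exp_ne_zero _

theorem HB_pos {β : ℝ} (hβ : 0 < β) {T U : ℝ} (h : Adm T U) {x : ℝ} (h1 : 1 / 4 ≤ x) (h2 : x ≤ 3) :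
    0 < HB β T U x :=
  LI_pos (FB_diff β T U) hβ (FB_gd hβ T h.pos) (FB_ne β T U) h1 h2

theorem H0_lower {β : ℝ} (hβ : 0 < β) : ∃ c : ℝ, 0 < c ∧ ∀ T U : ℝ, Adm T U →
    c * (T ^ β * U) ≤ HB β T U (1 / 2) := by
  obtain ⟨c, hc, hc'⟩ := HB_two_lower hβ
  obtain ⟨B, hB, hB'⟩ := zeta_three_bd
  obtain ⟨C, hC, hC'⟩ := HB_upper hβ (x := 3) (by norm_num) (by norm_num) hB'
  refine ⟨(c / C ^ (3 / 5 : ℝ)) ^ (5 / 2 : ℝ), by positivity, fun T U h => ?_⟩
  have hT : 0 < T := by linarith [h.1]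
  have hU := h.pos
  have hV0 := HB_pos hβ h (x := 1 / 2) (by norm_num) (by norm_num)
  have hN : 0 < T ^ β * U := by positivity
  set N := T ^ β * U with hNdef
  have h2 := hc' T U h
  have h3 := hC' T U h
  have h3p := HB_pos hβ h (x := 3) (by norm_num) (by norm_num)
  have hlc := LI_logconv (FB_diff β T U) hβ (FB_gd hβ T hU) (x₁ := 1 / 2) (x₂ := 3) (θ := 3 / 5)
    (by norm_num) (by norm_num) (by norm_num) (by norm_num) (by norm_num) hV0 h3p
  have e1 : (1 - 3 / 5 : ℝ) * (1 / 2) + 3 / 5 * 3 = 2 := by norm_num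
  have e2 : (1 - 3 / 5 : ℝ) = 2 / 5 := by norm_num
  rw [e1, e2] at hlc
  change HB β T U 2 ≤ HB β T U (1 / 2) ^ (2 / 5 : ℝ) * HB β T U 3 ^ (3 / 5 : ℝ) at hlc
  have h4 : HB β T U 3 ^ (3 / 5 : ℝ) ≤ C ^ (3 / 5 : ℝ) * N ^ (3 / 5 : ℝ) := by
    rw [← Real.mul_rpow hC.le hN.le]
    exact Real.rpow_le_rpow h3p.le h3 (by norm_num)
  have h5 : c * N ≤ HB β T U (1 / 2) ^ (2 / 5 : ℝ) * (C ^ (3 / 5 : ℝ) * N ^ (3 / 5 : ℝ)) :=
    h2.trans (hlc.trans (mul_le_mul_of_nonneg_left h4 (by positivity)))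
  have h6 : c / C ^ (3 / 5 : ℝ) * N ^ (2 / 5 : ℝ) ≤ HB β T U (1 / 2) ^ (2 / 5 : ℝ) := by
    have hCp : 0 < C ^ (3 / 5 : ℝ) := Real.rpow_pos_of_pos hC _
    have hNp : 0 < N ^ (3 / 5 : ℝ) := Real.rpow_pos_of_pos hN _
    have e3 : N ^ (2 / 5 : ℝ) * N ^ (3 / 5 : ℝ) = N := by
      rw [← Real.rpow_add hN]
      norm_num
    rw [div_mul_eq_mul_div, div_le_iff₀ hCp]
    have h7 : c * N ^ (2 / 5 : ℝ) * N ^ (3 / 5 : ℝ) ≤
        HB β T U (1 / 2) ^ (2 / 5 : ℝ) * C ^ (3 / 5 : ℝ) * N ^ (3 / 5 : ℝ) := by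
      rw [mul_assoc, e3, mul_assoc]
      exact h5
    exact le_of_mul_le_mul_right h7 hNp
  have h8 := Real.rpow_le_rpow (by positivity) h6 (by norm_num : (0 : ℝ) ≤ 5 / 2)
  rw [← Real.rpow_mul hV0.le, Real.mul_rpow (by positivity) (by positivity),
    ← Real.rpow_mul hN.le] at h8
  norm_num at h8
  exact h8

/-- normalised mean -/
def GB (β T U a : ℝ) : ℝ := HB β T U (1 / 2 + a / Real.log T) / HB β T U (1 / 2)

theorem GB_le {β : ℝ} (hβ : 0 < β) {a : ℝ} (ha : 0 ≤ a) {ε : ℝ} (hε : 0 < ε) :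
    ∀ᶠ T : ℝ in atTop, ∀ U : ℝ, Adm T U → GB β T U a ≤ 1 + ε := by
  obtain ⟨c, hc, hc'⟩ := H0_lower hβ
  obtain ⟨C, hC, hC'⟩ := HB_upper hβ (x := 2) (by norm_num) (by norm_num) zeta_two_bd
  set B := max 1 (C / c) with hBdef
  have hB1 : 1 ≤ B := le_max_left _ _
  have hlim : Tendsto (fun T : ℝ => B ^ (2 / 3 * a / Real.log T)) atTop (𝓝 (B ^ (0 : ℝ))) := by
    have h1 : Tendsto (fun T : ℝ => 2 / 3 * a / Real.log T) atTop (𝓝 0) :=
      Real.tendsto_log_atTop.const_div_atTop _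
    exact (Real.continuousAt_const_rpow (by linarith : B ≠ 0)).tendsto.comp h1
  rw [Real.rpow_zero] at hlim
  have hlim2 : Tendsto (fun T : ℝ => 2 / 3 * a / Real.log T) atTop (𝓝 0) :=
    Real.tendsto_log_atTop.const_div_atTop _
  filter_upwards [hlim.eventually (gt_mem_nhds (show (1 : ℝ) < 1 + ε by linarith)),
    hlim2.eventually (gt_mem_nhds (show (0 : ℝ) < 1 by norm_num))] with T h1 h2 U h
  refine le_trans ?_ h1.le
  have hT : 0 < T := by linarith [h.1]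
  have hU := h.pos
  have hL := h.log
  have hV0 := HB_pos hβ h (x := 1 / 2) (by norm_num) (by norm_num)
  have hN : 0 < T ^ β * U := by positivity
  have h2p := HB_pos hβ h (x := 2) (by norm_num) (by norm_num)
  set θ := 2 / 3 * a / Real.log T with hθ
  have hθ0 : 0 ≤ θ := by positivity
  have hlc := LI_logconv (FB_diff β T U) hβ (FB_gd hβ T hU) (x₁ := 1 / 2) (x₂ := 2) (θ := θ)
    (by norm_num) (by norm_num) (by norm_num) hθ0 h2.le hV0 h2p
  have e1 : (1 - θ) * (1 / 2) + θ * 2 = 1 / 2 + a / Real.log T := by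
    rw [hθ]; ring
  rw [e1] at hlc
  change HB β T U (1 / 2 + a / Real.log T) ≤ HB β T U (1 / 2) ^ (1 - θ) * HB β T U 2 ^ θ at hlc
  set V0 := HB β T U (1 / 2) with hV0d
  have h3 : HB β T U 2 ≤ B * V0 := by
    have a1 := hC' T U h
    have a2 := hc' T U h
    have a3 : C / c * (c * (T ^ β * U)) = C * (T ^ β * U) := by
      field_simp
    calc HB β T U 2 ≤ C / c * (c * (T ^ β * U)) := by rw [a3]; exact a1
      _ ≤ C / c * V0 := mul_le_mul_of_nonneg_left a2 (by positivity)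
      _ ≤ B * V0 := mul_le_mul_of_nonneg_right (le_max_right _ _) hV0.le
  have h4 : HB β T U 2 ^ θ ≤ B ^ θ * V0 ^ θ := by
    rw [← Real.mul_rpow (by linarith) hV0.le]
    exact Real.rpow_le_rpow h2p.le h3 hθ0
  unfold GB
  rw [div_le_iff₀ hV0]
  calc HB β T U (1 / 2 + a / Real.log T) ≤ V0 ^ (1 - θ) * HB β T U 2 ^ θ := hlc
    _ ≤ V0 ^ (1 - θ) * (B ^ θ * V0 ^ θ) := by gcongr
    _ = B ^ θ * (V0 ^ (1 - θ) * V0 ^ θ) := by ring
    _ = B ^ θ * V0 := by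
        rw [← Real.rpow_add hV0]
        norm_num

end

end Q97.RB
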