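import Pool.Agent.Q97.RB.Off

set_option autoImplicit false

open Filter MeasureTheory Metric Set Topology Complex MeromorphicOn
open scoped ENNReal

namespace Q97.RB

open Q97.MM

noncomputable section

/-- multiplicity of a zero of zeta -/
def mult (ρ : ℂ) : ℕ := analyticOrderNatAt riemannZeta ρ

/-- the number of zeros in a closed disc, with multiplicities -/
def count (c : ℂ) (r : ℝ) : ℕ := ∑ᶠ (ρ : ℂ) (_ : ρ ∈ closedBall c r), mult ρ

/-- the logarithmic counting function of the zeros in a closed disc -/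
def logcount (c : ℂ) (r : ℝ) : ℝ :=
  ∑ᶠ (ρ : ℂ) (_ : ρ ∈ closedBall c r), (mult ρ : ℝ) * Real.log (r / ‖c - ρ‖)

theorem not_analytic_one : ¬ AnalyticAt ℂ riemannZeta 1 := by
  intro h
  have h1 : Tendsto (fun s : ℂ => (s - 1) * riemannZeta s) (𝓝[≠] 1) (𝓝 ((1 - 1) * riemannZeta 1)) := by
    have h2 : ContinuousAt (fun s : ℂ => (s - 1) * riemannZeta s) 1 :=
      (continuousAt_id.sub continuousAt_const).mul h.continuousAt
    exact h2.tendsto.mono_left nhdsWithin_le_nhds
  have h3 := tendsto_nhds_unique riemannZeta_residue_one h1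
  simp at h3

theorem ord_Z1 (u : ℂ) : analyticOrderNatAt Z1 u = mult u := by
  have hZ := Z1_differentiable.analyticAt u
  unfold mult
  rcases eq_or_ne u 1 with rfl | hu
  · rw [analyticOrderNatAt_of_not_analyticAt not_analytic_one]
    unfold analyticOrderNatAt
    rw [hZ.analyticOrderAt_eq_zero.mpr (by rw [Z1_one]; exact one_ne_zero)]
    rfl
  · unfold analyticOrderNatAt
    congr 1
    have hζ : AnalyticAt ℂ riemannZeta u := by
      rw [Complex.analyticAt_iff_eventually_differentiableAt]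
      filter_upwards [isOpen_ne.mem_nhds hu] with z hz using differentiableAt_riemannZeta hz
    have h1 : AnalyticAt ℂ (fun s : ℂ => s - 1) u := by fun_prop
    have h2 : analyticOrderAt Z1 u = analyticOrderAt ((fun s : ℂ => s - 1) * riemannZeta) u := by
      apply analyticOrderAt_congr
      filter_upwards [isOpen_ne.mem_nhds hu] with z hz
      exact Z1_of_ne hz
    rw [h2, analyticOrderAt_mul h1 hζ,
      h1.analyticOrderAt_eq_zero.mpr (by exact sub_ne_zero.mpr hu), zero_add]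

theorem ord_FB (β T U : ℝ) (u : ℂ) : analyticOrderNatAt (FB β T U) u = mult u := by
  rw [← ord_Z1]
  have hZ := Z1_differentiable.analyticAt u
  set V := U * √(β / 2)
  set E : ℂ → ℂ := fun s => cexp ((s - 1 / 2 - T * I) ^ 2 / (2 * (V : ℂ) ^ 2)) with hE
  have hEd : Differentiable ℂ E := by
    rw [hE]; fun_prop
  have hEa := hEd.analyticAt u
  have e : FB β T U = Z1 * E := by
    funext s
    simp only [FB, FF, pow_one, Pi.mul_apply, hE]
    rfl
  unfold analyticOrderNatAt
  rw [e, analyticOrderAt_mul hZ hEa, hEa.analyticOrderAt_eq_zero.mpr (Complex.exp_ne_zero _),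
    add_zero]

theorem divisor_entire {F : ℂ → ℂ} (hF : Differentiable ℂ F) {U : Set ℂ} {u : ℂ} (hu : u ∈ U) :
    divisor F U u = (analyticOrderNatAt F u : ℤ) := by
  have hA : AnalyticOnNhd ℂ F univ := fun z _ => hF.analyticAt z
  rw [MeromorphicOn.AnalyticOnNhd.divisor_apply (hA.mono (subset_univ U)) hu]
  unfold analyticOrderNatAt
  induction analyticOrderAt F u using WithTop.recTopCoe with
  | top => rfl
  | coe n => rfl

theorem NN_eq {F : ℂ → ℂ} (hF : Differentiable ℂ F)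
    (hm : ∀ u, analyticOrderNatAt F u = mult u) (c : ℂ) {r : ℝ} (hr : 0 < r) :
    NN F c r = logcount c r := by
  classical
  unfold NN logcount
  refine finsum_congr fun u => ?_
  rw [abs_of_pos hr]
  by_cases hu : u ∈ closedBall c r
  · rw [finsum_eq_if, if_pos hu, divisor_entire hF hu, hm, div_eq_mul_inv]
    norm_cast
  · have h0 : divisor F (closedBall c r) u = 0 :=
      Function.locallyFinsuppWithin.apply_eq_zero_of_notMem _ hu
    rw [finsum_eq_if, if_neg hu, h0]
    simp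

theorem logcount_nonneg (c : ℂ) {r : ℝ} (hr : 0 < r) : 0 ≤ logcount c r := by
  rw [← NN_eq Z1_differentiable ord_Z1 c hr]
  exact NN_nonneg Z1_differentiable c hr

/-- The inequality for `(s - 1) ζ(s)`. -/
theorem core {β : ℝ} (hβ : 0 < β) {A : ℝ} (hA : 0 < A) {ε : ℝ} (hε : 0 < ε) :
    ∀ᶠ T : ℝ in atTop, ∀ U : ℝ, Adm T U →
      ∫⁻ y : ℝ, ENNReal.ofReal (‖FB β T U (((1 / 2 : ℝ) : ℂ) + y * I)‖ ^ β *
        Real.exp (β * logcount (((1 / 2 : ℝ) : ℂ) + y * I) (A / Real.log T))) ≤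
      ENNReal.ofReal ((Real.exp (β * A) + ε) * HB β T U (1 / 2)) := by
  filter_upwards [HB_unif hβ hA hε,
    (log_div_tendsto A).eventually (gt_mem_nhds (show (0 : ℝ) < 1 / 4 by norm_num))]
    with T h1 h3 U h
  have hL := h.log
  have hπ := Real.pi_pos
  have hr0 : 0 < A / Real.log T := by positivity
  rw [abs_of_pos hr0] at h3
  set r := A / Real.log T with hr
  have hs := submean_zeros (FB_diff β T U) hβ (FB_gd hβ T h.pos) (x := 1 / 2) (r := r) hr0
    (by linarith) (by linarith)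
  simp only [NN_eq (FB_diff β T U) (ord_FB β T U) _ hr0] at hs
  refine hs.trans ?_
  have h4 : ∫⁻ θ in Ioc 0 (2 * Real.pi), ENNReal.ofReal (LI (FB β T U) β (1 / 2 + r * Real.cos θ)) ≤
      ∫⁻ _ in Ioc 0 (2 * Real.pi),
        ENNReal.ofReal ((Real.exp (β * A) + ε) * HB β T U (1 / 2)) := by
    refine setLIntegral_mono' measurableSet_Ioc fun θ _ => ENNReal.ofReal_le_ofReal ?_
    refine h1 U h _ ?_
    rw [add_sub_cancel_left, abs_mul, abs_of_pos hr0]
    exact mul_le_of_le_one_right hr0.le (Real.abs_cos_le_one θ)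
  calc ENNReal.ofReal ((2 * Real.pi)⁻¹) *
        ∫⁻ θ in Ioc 0 (2 * Real.pi), ENNReal.ofReal (LI (FB β T U) β (1 / 2 + r * Real.cos θ))
      ≤ ENNReal.ofReal ((2 * Real.pi)⁻¹) * ∫⁻ _ in Ioc 0 (2 * Real.pi),
        ENNReal.ofReal ((Real.exp (β * A) + ε) * HB β T U (1 / 2)) := by gcongr
    _ = ENNReal.ofReal ((Real.exp (β * A) + ε) * HB β T U (1 / 2)) := by
        rw [setLIntegral_const, Real.volume_Ioc, sub_zero, mul_comm, mul_assoc,
          ← ENNReal.ofReal_mul (by positivity), mul_inv_cancel₀ (by positivity), ENNReal.ofReal_one,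
          mul_one]

/-- The pointwise bound used far from `T`. -/
theorem far_pt {β : ℝ} (hβ : 0 < β) {r : ℝ} (hr : 0 < r) (hr1 : r ≤ 1 / 4) (y : ℝ) :
    ‖riemannZeta (((1 / 2 : ℝ) : ℂ) + y * I)‖ ^ β *
      Real.exp (β * logcount (((1 / 2 : ℝ) : ℂ) + y * I) r) ≤
      2 ^ β * 180 ^ β * (1 + |y|) ^ ⌈2 * β⌉₊ := by
  set c : ℂ := ((1 / 2 : ℝ) : ℂ) + y * I with hc
  have hJ := jensen_ineq Z1_differentiable (c := c) hr hβ
  rw [NN_eq Z1_differentiable ord_Z1 c hr] at hJ
  have hne : c ≠ 1 := ne_one_of_re (by norm_num) y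
  have h1 : ‖riemannZeta c‖ ≤ 2 * ‖Z1 c‖ := by
    rw [Z1_of_ne hne, norm_mul]
    have h4 : 1 / 2 ≤ ‖c - 1‖ := by
      have := Complex.abs_re_le_norm (c - 1)
      have e : (c - 1).re = 1 / 2 - 1 := by rw [hc]; simp
      rw [e] at this
      refine le_trans ?_ this
      norm_num
    nlinarith [norm_nonneg (riemannZeta c)]
  have h2 : ‖riemannZeta c‖ ^ β ≤ 2 ^ β * ‖Z1 c‖ ^ β := by
    rw [← Real.mul_rpow (by norm_num) (norm_nonneg _)]
    exact Real.rpow_le_rpow (norm_nonneg _) h1 hβ.le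
  have hcont : Continuous (fun z => ‖Z1 z‖ ^ β) :=
    Z1_differentiable.continuous.norm.rpow_const fun z => Or.inr hβ.le
  have hci : CircleIntegrable (fun z => ‖Z1 z‖ ^ β) c r :=
    (hcont.comp (continuous_circleMap c r)).intervalIntegrable _ _
  have h3 : Real.circleAverage (fun z => ‖Z1 z‖ ^ β) c r ≤ 180 ^ β * (1 + |y|) ^ ⌈2 * β⌉₊ := by
    apply Real.circleAverage_mono_on_of_le_circle hci
    intro z hz
    rw [mem_sphere, abs_of_pos hr, dist_eq_norm] at hz
    apply Q97.BS.rpow_bd (norm_nonneg _) hβ (by norm_num)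
    have e1 : z = (z.re : ℂ) + z.im * I := (Complex.re_add_im z).symm
    have h5 := Complex.abs_re_le_norm (z - c)
    have h6 := Complex.abs_im_le_norm (z - c)
    rw [hz] at h5 h6
    have e2 : (z - c).re = z.re - 1 / 2 := by rw [hc]; simp
    have e3 : (z - c).im = z.im - y := by rw [hc]; simp
    rw [e2, abs_le] at h5
    rw [e3] at h6
    have h7 := Z1_growth (x := z.re) (y := z.im) (by linarith [h5.1]) (by linarith [h5.2])
    rw [← e1] at h7
    have h8 : |z.im| ≤ |y| + 1 / 4 := by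
      have := abs_add_le (z.im - y) y
      rw [sub_add_cancel] at this
      linarith
    have hy := abs_nonneg y
    calc ‖Z1 z‖ ≤ 45 * (1 + |z.im|) ^ 2 := h7
      _ ≤ 45 * (2 * (1 + |y|)) ^ 2 := by
          gcongr
          linarith
      _ = _ := by ring
  calc ‖riemannZeta c‖ ^ β * Real.exp (β * logcount c r)
      ≤ (2 ^ β * ‖Z1 c‖ ^ β) * Real.exp (β * logcount c r) := by gcongr
    _ = 2 ^ β * (‖Z1 c‖ ^ β * Real.exp (β * logcount c r)) := by ring
    _ ≤ 2 ^ β * (180 ^ β * (1 + |y|) ^ ⌈2 * β⌉₊) :=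
        mul_le_mul_of_nonneg_left (hJ.trans h3) (by positivity)
    _ = _ := by ring

/-- The moment of `ζ` weighted by the logarithmic counting function. -/
theorem tilted {β : ℝ} (hβ : 0 < β) {A : ℝ} (hA : 0 < A) {ε : ℝ} (hε : 0 < ε) :
    ∀ᶠ T : ℝ in atTop, ∀ U : ℝ, Adm T U → 0 < MB β T U (1 / 2) ∧
      ∫⁻ y : ℝ, ENNReal.ofReal (Real.exp (β * logcount (((1 / 2 : ℝ) : ℂ) + y * I)
        (A / Real.log T)) * (‖riemannZeta (((1 / 2 : ℝ) : ℂ) + y * I)‖ ^ β * wt T U y)) ≤
      ENNReal.ofReal ((Real.exp (β * A) + ε) * MB β T U (1 / 2)) := by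
  set K := Real.exp (β * A) with hK
  have hK1 : 1 ≤ K := Real.one_le_exp (by positivity)
  -- the constants
  have hlim : Tendsto (fun e : ℝ => (K + e) / ((1 - e) ^ β * (1 - 2 * e))) (𝓝[>] 0) (𝓝 K) := by
    have h1 : ContinuousAt (fun e : ℝ => (K + e) / ((1 - e) ^ β * (1 - 2 * e))) 0 := by
      have h2 : ContinuousAt (fun e : ℝ => (1 - e) ^ β) 0 :=
        ContinuousAt.rpow_const (by fun_prop) (Or.inl (by norm_num))
      refine ContinuousAt.div (by fun_prop) (h2.mul (by fun_prop)) ?_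
      norm_num
    have h3 := h1.tendsto
    norm_num at h3
    exact h3.mono_left nhdsWithin_le_nhds
  obtain ⟨e, he1, he0, he2⟩ : ∃ e : ℝ, (K + e) / ((1 - e) ^ β * (1 - 2 * e)) < K + ε / 2 ∧ 0 < e ∧
      e < 1 / 4 := by
    have h1 := hlim.eventually (gt_mem_nhds (show K < K + ε / 2 by linarith))
    have h2 : ∀ᶠ e : ℝ in 𝓝[>] 0, 0 < e := self_mem_nhdsWithin
    have h3 : ∀ᶠ e : ℝ in 𝓝[>] 0, e < 1 / 4 :=
      nhdsWithin_le_nhds (gt_mem_nhds (by norm_num))
    exact (h1.and (h2.and h3)).exists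
  obtain ⟨c, hc, hc'⟩ := H0_lower hβ
  have hsm : Tendsto (fun T : ℝ => Real.pi / T ^ 3) atTop (𝓝 0) :=
    (tendsto_pow_atTop (n := 3) (α := ℝ) (by norm_num)).const_div_atTop _
  have hcε : 0 < ε / 2 * (c / 2) := by positivity
  filter_upwards [core hβ hA he0, F1 hβ 0 he0,
    (log_div_tendsto A).eventually (gt_mem_nhds (show (0 : ℝ) < 1 / 4 by norm_num)),
    Q97.BS.tail ⌈2 * β⌉₊ 3 (2 ^ β * 180 ^ β) he0, hsm.eventually (gt_mem_nhds hcε),
    eventually_ge_atTop 3] with T h1 h2 h3 h4 h5 hT U h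
  have hT0 : 0 < T := by linarith
  have hU := h.pos
  have hL := h.log
  have hr0 : 0 < A / Real.log T := by positivity
  rw [abs_of_pos hr0] at h3
  set r := A / Real.log T with hr
  have hV0 := HB_pos hβ h (x := 1 / 2) (by norm_num) (by norm_num)
  set H := HB β T U (1 / 2) with hH
  set M := MB β T U (1 / 2) with hM
  have hM0 : 0 ≤ M := MB_nonneg _ _ _ _
  have hTβ : 0 < T ^ β := by positivity
  -- `H (1 - 2e) ≤ T ^ β M`
  have g1 : H * (1 - 2 * e) ≤ T ^ β * M := by
    have g2 := (abs_le.mp (h2 U h)).2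
    rw [GB_zero hβ h] at g2
    have g3 : JB β T U 0 = T ^ β * M / H := by
      unfold JB
      rw [zero_div, add_zero]
    rw [g3] at g2
    have g4 : 1 - 2 * e ≤ T ^ β * M / H := by linarith
    rw [le_div_iff₀ hV0] at g4
    linarith
  have g5 : c / 2 ≤ M := by
    have g6 := hc' T U h
    have g7 : T ^ β * (c / 2) ≤ T ^ β * M := by
      have g8 : c * (T ^ β * U) * (1 / 2) ≤ H * (1 - 2 * e) := by
        have : 0 ≤ c * (T ^ β * U) := by positivity
        nlinarith
      have g9 : T ^ β * c ≤ c * (T ^ β * U) := by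
        have : T ^ β * 1 ≤ T ^ β * U := mul_le_mul_of_nonneg_left h.2.1 hTβ.le
        nlinarith
      linarith
    exact le_of_mul_le_mul_left g7 hTβ
  refine ⟨by linarith [half_pos hc], ?_⟩
  -- the two regions
  set Φ : ℝ → ℝ≥0∞ := fun y => ENNReal.ofReal (Real.exp (β * logcount (((1 / 2 : ℝ) : ℂ) + y * I) r) *
    (‖riemannZeta (((1 / 2 : ℝ) : ℂ) + y * I)‖ ^ β * wt T U y)) with hΦ
  set D : ℝ := ((1 - e) * T) ^ β with hD
  have hD0 : 0 < D := by
    have : 0 < (1 - e) * T := mul_pos (by linarith) hT0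
    positivity
  have hpt : ∀ y : ℝ, Φ y ≤ ENNReal.ofReal D⁻¹ * ENNReal.ofReal (‖FB β T U (((1 / 2 : ℝ) : ℂ) + y * I)‖ ^ β *
        Real.exp (β * logcount (((1 / 2 : ℝ) : ℂ) + y * I) r)) +
        ENNReal.ofReal (Q97.BS.tR 3 T y) := by
    intro y
    by_cases hy : |y - T| ≤ e * T
    · refine le_trans ?_ le_self_add
      rw [← ENNReal.ofReal_mul (by positivity)]
      apply ENNReal.ofReal_le_ofReal
      rw [FB_pow hβ hU]
      have hexp : Real.exp (((1 / 2 : ℝ) - 1 / 2) ^ 2 / U ^ 2) = 1 := by norm_num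
      rw [hexp, one_mul]
      set z : ℂ := ((1 / 2 : ℝ) : ℂ) + y * I with hz
      have hne : z ≠ 1 := ne_one_of_re (by norm_num) y
      have hy1 : (1 - e) * T ≤ y := by linarith [(abs_le.mp hy).1]
      have a1 : (1 - e) * T ≤ ‖z - 1‖ := by
        have := Complex.abs_im_le_norm (z - 1)
        have e1 : (z - 1).im = y := by rw [hz]; simp
        rw [e1] at this
        exact hy1.trans ((le_abs_self y).trans this)
      have a2 : D * ‖riemannZeta z‖ ^ β ≤ ‖Z1 z‖ ^ β := by
        rw [Z1_of_ne hne, norm_mul, Real.mul_rpow (norm_nonneg _) (norm_nonneg _), hD]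
        have : ((1 - e) * T) ^ β ≤ ‖z - 1‖ ^ β :=
          Real.rpow_le_rpow (mul_nonneg (by linarith) hT0.le) a1 hβ.le
        gcongr
      have a3 : ‖riemannZeta z‖ ^ β ≤ D⁻¹ * ‖Z1 z‖ ^ β := by
        rw [le_inv_mul_iff₀ hD0]
        exact a2
      have hw := wt_pos T U y
      calc Real.exp (β * logcount z r) * (‖riemannZeta z‖ ^ β * wt T U y)
          ≤ Real.exp (β * logcount z r) * ((D⁻¹ * ‖Z1 z‖ ^ β) * wt T U y) := by gcongr
        _ = _ := by ring
    · push Not at hy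
      refine le_trans ?_ le_add_self
      apply ENNReal.ofReal_le_ofReal
      have b1 : e * (U * Real.log T) < |y - T| := by
        refine lt_of_le_of_lt ?_ hy
        have := h.2.2
        rw [le_div_iff₀ (by linarith)] at this
        exact mul_le_mul_of_nonneg_left this he0.le
      have b2 := far_pt hβ hr0 h3.le y
      have hw := wt_pos T U y
      refine le_trans ?_ (h4 U h y b1)
      calc Real.exp (β * logcount (((1 / 2 : ℝ) : ℂ) + y * I) r) *
            (‖riemannZeta (((1 / 2 : ℝ) : ℂ) + y * I)‖ ^ β * wt T U y)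
          = (‖riemannZeta (((1 / 2 : ℝ) : ℂ) + y * I)‖ ^ β *
            Real.exp (β * logcount (((1 / 2 : ℝ) : ℂ) + y * I) r)) * wt T U y := by ring
        _ ≤ _ := by gcongr
  obtain ⟨t1, t2⟩ := Q97.BS.tR_int 3 hT0
  have htm : Measurable (fun y => ENNReal.ofReal (Q97.BS.tR 3 T y)) := by
    unfold Q97.BS.tR
    fun_prop
  have htn : ∀ y, 0 ≤ Q97.BS.tR 3 T y := fun y => by unfold Q97.BS.tR; positivity
  calc ∫⁻ y : ℝ, Φ y ≤ ∫⁻ y : ℝ, (ENNReal.ofReal D⁻¹ * ENNReal.ofReal (‖FB β T U (((1 / 2 : ℝ) : ℂ) + y * I)‖ ^ β *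
        Real.exp (β * logcount (((1 / 2 : ℝ) : ℂ) + y * I) r)) +
        ENNReal.ofReal (Q97.BS.tR 3 T y)) := lintegral_mono hpt
    _ = ENNReal.ofReal D⁻¹ * (∫⁻ y : ℝ, ENNReal.ofReal (‖FB β T U (((1 / 2 : ℝ) : ℂ) + y * I)‖ ^ β *
        Real.exp (β * logcount (((1 / 2 : ℝ) : ℂ) + y * I) r))) +
        ENNReal.ofReal (∫ y : ℝ, Q97.BS.tR 3 T y) := by
        rw [lintegral_add_right _ htm, lintegral_const_mul' _ _ ENNReal.ofReal_ne_top,
          ofReal_integral_eq_lintegral_ofReal t1 (Eventually.of_forall htn)]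
    _ ≤ ENNReal.ofReal D⁻¹ * ENNReal.ofReal ((K + e) * H) + ENNReal.ofReal (ε / 2 * M) := by
        gcongr
        · exact h1 U h
        · refine t2.trans (h5.le.trans ?_)
          gcongr
    _ ≤ ENNReal.ofReal ((K + ε / 2) * M) + ENNReal.ofReal (ε / 2 * M) := by
        gcongr
        rw [← ENNReal.ofReal_mul (by positivity)]
        apply ENNReal.ofReal_le_ofReal
        have c1 : (1 - e) ^ β * T ^ β = D := by
          rw [hD, Real.mul_rpow (by linarith) hT0.le]
        have c2 : 0 < (1 - e) ^ β := Real.rpow_pos_of_pos (by linarith) _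
        have c3 : 0 < 1 - 2 * e := by linarith
        have c4 : D⁻¹ * ((K + e) * H) ≤ (K + e) / ((1 - e) ^ β * (1 - 2 * e)) * M := by
          rw [← c1, inv_mul_le_iff₀ (by positivity)]
          have c5 : (1 - e) ^ β * T ^ β * ((K + e) / ((1 - e) ^ β * (1 - 2 * e)) * M) =
              (K + e) / (1 - 2 * e) * (T ^ β * M) := by
            field_simp
          rw [c5]
          calc (K + e) * H = (K + e) / (1 - 2 * e) * (H * (1 - 2 * e)) := by
                rw [div_mul_eq_mul_div, eq_div_iff c3.ne']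
                ring
            _ ≤ _ := by gcongr
        refine c4.trans ?_
        gcongr
    _ = ENNReal.ofReal ((K + ε) * M) := by
        rw [← ENNReal.ofReal_add (by positivity) (by positivity)]
        congr 1
        ring

end

end Q97.RB
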