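import Pool.Agent.Q97.RB.Til

set_option autoImplicit false

open Filter MeasureTheory Metric Set Topology Complex MeromorphicOn
open scoped ENNReal

namespace Q97.RB

open Q97.MM

noncomputable section

theorem fin_supp (c : ℂ) (r : ℝ) : {ρ : ℂ | ρ ∈ closedBall c r ∧ mult ρ ≠ 0}.Finite := by
  have h := (divisor Z1 (closedBall c r)).finiteSupport (isCompact_closedBall c r)
  refine h.subset fun ρ hρ => ?_
  rw [Function.mem_support, divisor_entire Z1_differentiable hρ.1, ord_Z1]
  exact_mod_cast hρ.2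

theorem count_eq (c : ℂ) {r r' : ℝ} (hr : r ≤ r') : count c r =
    ∑ ρ ∈ (fin_supp c r').toFinset, (closedBall c r).indicator mult ρ := by
  unfold count
  rw [finsum_mem_def]
  refine finsum_eq_sum_of_support_subset _ fun ρ hρ => ?_
  rw [Function.mem_support] at hρ
  rw [Set.Finite.coe_toFinset]
  by_cases h : ρ ∈ closedBall c r
  · rw [indicator_of_mem h] at hρ
    exact ⟨closedBall_subset_closedBall hr h, hρ⟩
  · rw [indicator_of_notMem h] at hρ
    exact absurd rfl hρ

theorem logcount_eq (c : ℂ) (r : ℝ) : logcount c r =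
    ∑ ρ ∈ (fin_supp c r).toFinset, (mult ρ : ℝ) * Real.log (r / ‖c - ρ‖) := by
  have h1 : logcount c r = ∑ ρ ∈ (fin_supp c r).toFinset,
      (closedBall c r).indicator (fun ρ => (mult ρ : ℝ) * Real.log (r / ‖c - ρ‖)) ρ := by
    unfold logcount
    rw [finsum_mem_def]
    refine finsum_eq_sum_of_support_subset _ fun ρ hρ => ?_
    rw [Function.mem_support] at hρ
    rw [Set.Finite.coe_toFinset]
    by_cases h : ρ ∈ closedBall c r
    · refine ⟨h, fun h0 => hρ ?_⟩
      rw [indicator_of_mem h, h0]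
      simp
    · rw [indicator_of_notMem h] at hρ
      exact absurd rfl hρ
  rw [h1]
  refine Finset.sum_congr rfl fun ρ hρ => ?_
  rw [Set.Finite.mem_toFinset] at hρ
  exact indicator_of_mem hρ.1 _

theorem mult_eq_zero {ρ : ℂ} (h : riemannZeta ρ ≠ 0) : mult ρ = 0 := by
  unfold mult analyticOrderNatAt
  rw [analyticOrderAt_eq_zero.mpr (Or.inr h)]
  rfl

/-- The counting function is controlled by the logarithmic one. -/
theorem count_le {c : ℂ} (hc : riemannZeta c ≠ 0) {r q : ℝ} (hr : 0 < r) (hq : 0 ≤ q) :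
    q * count c r ≤ logcount c (r * Real.exp q) := by
  have hE : 1 ≤ Real.exp q := Real.one_le_exp hq
  have hrr : r ≤ r * Real.exp q := le_mul_of_one_le_right hr.le hE
  rw [count_eq c hrr, logcount_eq, Nat.cast_sum, Finset.mul_sum]
  refine Finset.sum_le_sum fun ρ hρ => ?_
  rw [Set.Finite.mem_toFinset] at hρ
  have hρc : ρ ≠ c := by
    rintro rfl
    exact hρ.2 (mult_eq_zero hc)
  have hn : 0 < ‖c - ρ‖ := norm_pos_iff.mpr (sub_ne_zero.mpr hρc.symm)
  have hle : ‖c - ρ‖ ≤ r * Real.exp q := by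
    have := hρ.1
    rwa [mem_closedBall, dist_comm, dist_eq_norm] at this
  by_cases h : ρ ∈ closedBall c r
  · rw [indicator_of_mem h]
    have h1 : ‖c - ρ‖ ≤ r := by rwa [mem_closedBall, dist_comm, dist_eq_norm] at h
    have h2 : q ≤ Real.log (r * Real.exp q / ‖c - ρ‖) := by
      rw [Real.le_log_iff_exp_le (by positivity), le_div_iff₀ hn, mul_comm r]
      gcongr
    rw [mul_comm]
    gcongr
  · rw [indicator_of_notMem h, Nat.cast_zero, mul_zero]
    apply mul_nonneg (Nat.cast_nonneg _)
    apply Real.log_nonneg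
    rw [le_div_iff₀ hn, one_mul]
    exact hle

/-- Exponential moments of the number of zeros. -/
theorem tilted_exp {β : ℝ} (hβ : 0 < β) {R lam : ℝ} (hR : 0 < R) (hlam : 0 ≤ lam) {ε : ℝ}
    (hε : 0 < ε) : ∀ᶠ T : ℝ in atTop, ∀ U : ℝ, Adm T U →
      ∫⁻ y : ℝ, ENNReal.ofReal (Real.exp (lam * count (((1 / 2 : ℝ) : ℂ) + y * I)
        (R / Real.log T)) * (‖riemannZeta (((1 / 2 : ℝ) : ℂ) + y * I)‖ ^ β * wt T U y)) ≤
      ENNReal.ofReal ((Real.exp (β * (R * Real.exp (lam / β))) + ε) * MB β T U (1 / 2)) := by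
  have hA : 0 < R * Real.exp (lam / β) := by positivity
  filter_upwards [tilted hβ hA hε] with T h1 U h
  refine le_trans (lintegral_mono fun y => ENNReal.ofReal_le_ofReal ?_) (h1 U h).2
  have hL := h.log
  have hw := wt_pos T U y
  set c : ℂ := ((1 / 2 : ℝ) : ℂ) + y * I with hc
  by_cases h0 : riemannZeta c = 0
  · rw [h0, norm_zero, Real.zero_rpow hβ.ne']
    simp
  · have h2 := count_le h0 (r := R / Real.log T) (q := lam / β) (by positivity) (by positivity)
    have e1 : R / Real.log T * Real.exp (lam / β) = R * Real.exp (lam / β) / Real.log T := by ring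
    rw [e1] at h2
    have h3 : lam * count c (R / Real.log T) ≤
        β * logcount c (R * Real.exp (lam / β) / Real.log T) := by
      have h4 := mul_le_mul_of_nonneg_left h2 hβ.le
      have e2 : β * (lam / β * (count c (R / Real.log T) : ℝ)) = lam * count c (R / Real.log T) := by
        field_simp
      rwa [e2] at h4
    gcongr

/-- Tails of the number of zeros. -/
theorem tilted_tail {β : ℝ} (hβ : 0 < β) {R : ℝ} (hR : 0 < R) {N : ℕ} (hN : R ≤ N) {ε : ℝ}
    (hε : 0 < ε) : ∀ᶠ T : ℝ in atTop, ∀ U : ℝ, Adm T U →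
      ∫⁻ y : ℝ, {y : ℝ | N ≤ count (((1 / 2 : ℝ) : ℂ) + y * I) (R / Real.log T)}.indicator
        (fun y => ENNReal.ofReal (‖riemannZeta (((1 / 2 : ℝ) : ℂ) + y * I)‖ ^ β * wt T U y)) y ≤
      ENNReal.ofReal (((Real.exp 1 * R / N) ^ (β * N) + ε) * MB β T U (1 / 2)) := by
  have hN0 : (0 : ℝ) < N := lt_of_lt_of_le hR hN
  set lam := β * Real.log (N / R) with hlam
  have hlam0 : 0 ≤ lam := mul_nonneg hβ.le (Real.log_nonneg (by rw [le_div_iff₀ hR]; linarith))
  have e1 : R * Real.exp (lam / β) = N := by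
    have : lam / β = Real.log (N / R) := by rw [hlam]; field_simp
    rw [this, Real.exp_log (by positivity)]
    field_simp
  have hlE : 1 ≤ Real.exp (lam * N) := Real.one_le_exp (by positivity)
  filter_upwards [tilted_exp hβ hR hlam0 hε] with T h1 U h
  have h2 := h1 U h
  rw [e1] at h2
  have hM := MB_nonneg β T U (1 / 2)
  have h3 : ∀ y : ℝ, {y : ℝ | N ≤ count (((1 / 2 : ℝ) : ℂ) + y * I) (R / Real.log T)}.indicator
        (fun y => ENNReal.ofReal (‖riemannZeta (((1 / 2 : ℝ) : ℂ) + y * I)‖ ^ β * wt T U y)) y ≤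
      ENNReal.ofReal (Real.exp (-(lam * N))) * ENNReal.ofReal (Real.exp (lam * count
        (((1 / 2 : ℝ) : ℂ) + y * I) (R / Real.log T)) *
          (‖riemannZeta (((1 / 2 : ℝ) : ℂ) + y * I)‖ ^ β * wt T U y)) := by
    intro y
    have hw := wt_pos T U y
    by_cases hy : y ∈ {y : ℝ | N ≤ count (((1 / 2 : ℝ) : ℂ) + y * I) (R / Real.log T)}
    · rw [indicator_of_mem hy, ← ENNReal.ofReal_mul (Real.exp_pos _).le]
      apply ENNReal.ofReal_le_ofReal
      rw [← mul_assoc, ← Real.exp_add]
      apply le_mul_of_one_le_left (by positivity)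
      apply Real.one_le_exp
      have hy' : (N : ℝ) ≤ count (((1 / 2 : ℝ) : ℂ) + y * I) (R / Real.log T) := by
        exact_mod_cast (hy : N ≤ _)
      have := mul_le_mul_of_nonneg_left hy' hlam0
      linarith
    · rw [indicator_of_notMem hy]
      exact zero_le
  refine (lintegral_mono h3).trans ?_
  rw [lintegral_const_mul' _ _ ENNReal.ofReal_ne_top]
  calc ENNReal.ofReal (Real.exp (-(lam * N))) * _
      ≤ ENNReal.ofReal (Real.exp (-(lam * N))) *
        ENNReal.ofReal ((Real.exp (β * N) + ε) * MB β T U (1 / 2)) := by gcongr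
    _ ≤ _ := by
        rw [← ENNReal.ofReal_mul (Real.exp_pos _).le, ← mul_assoc]
        apply ENNReal.ofReal_le_ofReal
        apply mul_le_mul_of_nonneg_right _ hM
        rw [mul_add]
        apply add_le_add
        · apply le_of_eq
          rw [← Real.exp_add, Real.rpow_def_of_pos (by positivity)]
          congr 1
          rw [hlam, mul_div_assoc, Real.log_mul (Real.exp_pos _).ne' (by positivity), Real.log_exp,
            Real.log_div hN0.ne' hR.ne', Real.log_div hR.ne' hN0.ne']
          ring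
        · apply mul_le_of_le_one_left hε.le
          rw [Real.exp_le_one_iff]
          have : 0 ≤ lam * N := by positivity
          linarith

end

end Q97.RB
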